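import Pool.Agent.Lib.LG.Count

/-!
# Small very dependent sets in frame matrices with short series classes
-/

open Finset Module

set_option linter.unusedSectionVars false

namespace LG

/-- upper bound for `LL` -/
lemma LL_le (D n : ℕ) (hD : 1 ≤ D) : (LL D n : ℝ) ≤
    4 / Real.log (1 + 1 / (2 * D : ℝ)) * Real.log (n + 2) + 10 := by
  have hb := one_lt_base D hD
  have hlogb : 0 < Real.log (1 + 1 / (2 * D : ℝ)) := Real.log_pos hb
  have hn : 0 ≤ Real.log ((n : ℝ) + 2) := Real.log_nonneg (by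
    have : (0 : ℝ) ≤ n := Nat.cast_nonneg n
    linarith)
  unfold LL
  have h1 := Nat.ceil_lt_add_one (show 0 ≤ Real.log ((n : ℝ) + 2) /
    Real.log (1 + 1 / (2 * D : ℝ)) by positivity)
  push_cast
  have h2 : 4 / Real.log (1 + 1 / (2 * D : ℝ)) * Real.log ((n : ℝ) + 2) =
    4 * (Real.log ((n : ℝ) + 2) / Real.log (1 + 1 / (2 * D : ℝ))) := by ring
  rw [h2]
  linarith

lemma log_small (c d : ℝ) (hc : 0 ≤ c) (hd : 0 ≤ d) (C : ℕ) :
    ∃ M : ℕ, ∀ e : ℕ, M ≤ e → c + d * Real.log ((e : ℝ) + C) < e := by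
  have h1 : Filter.Tendsto (fun e : ℕ => (e : ℝ) + C) Filter.atTop Filter.atTop :=
    Filter.tendsto_atTop_add_const_right _ _ tendsto_natCast_atTop_atTop
  have h2 := (Real.isLittleO_log_id_atTop).comp_tendsto h1
  have h3 := h2.def (show 0 < 1 / (2 * (d + 1)) by positivity)
  rw [Filter.eventually_atTop] at h3
  obtain ⟨N, hN⟩ := h3
  obtain ⟨N2, hN2⟩ := exists_nat_gt (2 * c + C)
  refine ⟨max N (max N2 1), fun e he => ?_⟩
  have he1 : N ≤ e := (le_max_left _ _).trans he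
  have he2 : N2 ≤ e := ((le_max_left _ _).trans (le_max_right _ _)).trans he
  have he3 : 1 ≤ e := ((le_max_right _ _).trans (le_max_right _ _)).trans he
  have h4 := hN e he1
  have he2' : (N2 : ℝ) ≤ e := by exact_mod_cast he2
  have he3' : (1 : ℝ) ≤ e := by exact_mod_cast he3
  have hC : (0 : ℝ) ≤ C := Nat.cast_nonneg C
  simp only [Function.comp, id] at h4
  rw [Real.norm_of_nonneg (Real.log_nonneg (by linarith)),
    Real.norm_of_nonneg (by linarith)] at h4
  have h5 : d * Real.log ((e : ℝ) + C) ≤ d * (1 / (2 * (d + 1)) * ((e : ℝ) + C)) :=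
    mul_le_mul_of_nonneg_left h4 hd
  have h6 : d * (1 / (2 * (d + 1)) * ((e : ℝ) + C)) ≤ ((e : ℝ) + C) / 2 := by
    have : d * (1 / (2 * (d + 1))) ≤ 1 / 2 := by
      rw [mul_one_div, div_le_div_iff₀ (by positivity) (by norm_num)]
      linarith
    calc d * (1 / (2 * (d + 1)) * ((e : ℝ) + C)) = (d * (1 / (2 * (d + 1)))) * ((e : ℝ) + C) := by
          ring
      _ ≤ 1 / 2 * ((e : ℝ) + C) := mul_le_mul_of_nonneg_right this (by linarith)
      _ = _ := by ring
  linarith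

/-- the threshold -/
lemma threshold (K s : ℕ) (hK : 1 ≤ K) : ∃ M : ℕ, ∀ e n : ℕ, M ≤ e → n ≤ e + (7 * K + s) →
    (6 * K + 1) * (K * (7 * K + s)) + 3 * K * (6 * K * ((s + 1) * LL (6 * K) n) + 1) <
      (3 * K + 1) * e := by
  have hb := one_lt_base (6 * K) (by omega)
  have hlogb : 0 < Real.log (1 + 1 / (2 * (6 * K : ℕ) : ℝ)) := Real.log_pos hb
  set β := Real.log (1 + 1 / (2 * (6 * K : ℕ) : ℝ)) with hβ
  set c : ℝ := (6 * K + 1) * (K * (7 * K + s)) + 3 * K * (6 * K * ((s + 1) * 10) + 1) with hc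
  set d : ℝ := 3 * K * (6 * K * ((s + 1) * (4 / β))) with hd
  obtain ⟨M, hM⟩ := log_small c d (by positivity) (by positivity) (7 * K + s + 2)
  refine ⟨M, fun e n he hn => ?_⟩
  have h1 := hM e he
  have h2 := LL_le (6 * K) n (by omega)
  rw [← hβ] at h2
  have hn' : (n : ℝ) ≤ e + (7 * K + s) := by exact_mod_cast hn
  have hn0 : (0 : ℝ) ≤ n := Nat.cast_nonneg n
  have h3 : Real.log ((n : ℝ) + 2) ≤ Real.log ((e : ℝ) + ((7 * K + s + 2 : ℕ) : ℝ)) := by
    apply Real.log_le_log (by linarith)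
    push_cast
    linarith
  have h4 : (LL (6 * K) n : ℝ) ≤ 4 / β * Real.log ((e : ℝ) + ((7 * K + s + 2 : ℕ) : ℝ)) + 10 := by
    have := mul_le_mul_of_nonneg_left h3 (show 0 ≤ 4 / β by positivity)
    linarith
  have h5 : ((6 * K + 1) * (K * (7 * K + s)) + 3 * K * (6 * K * ((s + 1) * LL (6 * K) n) + 1) : ℝ) ≤
      c + d * Real.log ((e : ℝ) + ((7 * K + s + 2 : ℕ) : ℝ)) := by
    have h6 : (3 * K * (6 * K * ((s + 1) * (LL (6 * K) n : ℝ)))) ≤
        3 * K * (6 * K * ((s + 1) * (4 / β * Real.log ((e : ℝ) + ((7 * K + s + 2 : ℕ) : ℝ)) + 10))) := by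
      gcongr
    rw [hc, hd]
    linarith
  have h7 : (e : ℝ) ≤ (3 * K + 1) * e := by
    have : (0 : ℝ) ≤ e := Nat.cast_nonneg e
    have : (0 : ℝ) ≤ K := Nat.cast_nonneg K
    nlinarith
  have h8 : ((6 * K + 1) * (K * (7 * K + s)) + 3 * K * (6 * K * ((s + 1) * LL (6 * K) n) + 1) : ℝ) <
      (3 * K + 1) * e := by linarith
  exact_mod_cast h8

variable {F : Type} [Field F] {α : Type} {m : ℕ} {a : α → (Fin m → F)} {A : Finset α}

/-- either few elements or a small very dependent set -/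
theorem small_dep (K s : ℕ) (hK : 1 ≤ K) : ∃ M0 : ℕ, ∀ (F : Type) [Field F] (α : Type) (m : ℕ)
    (a : α → (Fin m → F)) (A : Finset α), (∀ x ∈ A, (sp a x).card ≤ 2) → KP a A K →
    (E1 a A).card ≤ M0 ∨ ∃ S ⊆ A,
      finrank F (Submodule.span F (a '' (S : Set α))) + (s + 1) ≤ S.card ∧
      S.card ≤ (s + 1) * (K + LL (6 * K) (Vt a A).card) := by
  classical
  obtain ⟨M, hM⟩ := threshold K s hK
  refine ⟨M, fun F _ α m a A hfr h => ?_⟩
  by_cases he : (E1 a A).card ≤ M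
  · exact Or.inl he
  push Not at he
  right
  rcases count_main hfr h s with h1 | ⟨S, h1, h2, h3⟩
  swap
  · exact ⟨S, h1, h2, h3.trans (Nat.mul_le_mul_left _ (Nat.le_add_right _ _))⟩
  set e := (E1 a A).card with hedef
  set n := (Vt a A).card with hndef
  have hn : n ≤ e + (7 * K + s) := by
    have h2 : K * (3 * n) ≤ K * (3 * e + (7 * K + s)) := by
      calc K * (3 * n) ≤ 3 * K * n + e := by nlinarith
        _ ≤ 3 * K * e + K * (7 * K + s) := h1
        _ = _ := by ring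
    have h3 := Nat.le_of_mul_le_mul_left h2 (by omega)
    omega
  have hthr := hM e n he.le hn
  have hcond : (6 * K + 1) * n + 6 * K * ((s + 1) * LL (6 * K) n) + 1 ≤ 6 * K * e := by
    have h2 : 3 * K * ((6 * K + 1) * n + 6 * K * ((s + 1) * LL (6 * K) n) + 1) ≤
        3 * K * (6 * K * e) := by
      have h3 : (6 * K + 1) * (3 * K * n + e) ≤ (6 * K + 1) * (3 * K * e + K * (7 * K + s)) :=
        Nat.mul_le_mul_left _ h1
      nlinarith
    exact Nat.le_of_mul_le_mul_left h2 (by omega)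
  obtain ⟨S, hS1, hS2, hS3⟩ := exists_small_excess (sp a) (6 * K) n (by omega) (s + 1) (E1 a A)
    (fun x hx => ⟨(mem_E1.mp hx).2, hfr x (mem_E1.mp hx).1⟩) le_rfl hcond
  refine ⟨S, fun x hx => (mem_E1.mp (hS1 hx)).1, ?_, ?_⟩
  · have := finrank_span_le_VS a S
    omega
  · refine hS3.trans (Nat.mul_le_mul_left _ (Nat.le_add_left _ _))

end LG
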