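import Mathlib

/-!
# Small subgraphs of excess one in sparse dense-enough multigraphs with half edges
-/

open Finset

set_option linter.unusedSectionVars false

namespace LG

variable {α β : Type*} [DecidableEq α] [DecidableEq β]

/-- the vertices met by a set of elements -/
def VS (sp : α → Finset β) (S : Finset α) : Finset β := S.biUnion sp

lemma mem_VS {sp : α → Finset β} {S : Finset α} {v : β} : v ∈ VS sp S ↔ ∃ x ∈ S, v ∈ sp x := by
  simp [VS]

lemma VS_mono {sp : α → Finset β} {S T : Finset α} (h : S ⊆ T) : VS sp S ⊆ VS sp T :=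
  biUnion_subset_biUnion_of_subset_left _ h

lemma VS_union {sp : α → Finset β} {S T : Finset α} : VS sp (S ∪ T) = VS sp S ∪ VS sp T := by
  simp [VS, union_biUnion]

/-- the elements inside a set of vertices -/
def EI (sp : α → Finset β) (E : Finset α) (U : Finset β) : Finset α := E.filter fun x => sp x ⊆ U

/-- the elements inside `U` touching `W` -/
def ET (sp : α → Finset β) (E : Finset α) (U W : Finset β) : Finset α :=
  (EI sp E U).filter fun x => (sp x ∩ W).Nonempty

/-- existence of a minimal dense vertex set -/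
lemma exists_min_dense (sp : α → Finset β) (E : Finset α) (D : ℕ) (hE : E.Nonempty)
    (hsp : ∀ x ∈ E, (sp x).Nonempty) (h : (D + 1) * (VS sp E).card ≤ D * E.card) :
    ∃ U : Finset β, U.Nonempty ∧ U ⊆ VS sp E ∧
      ∀ W ⊆ U, W.Nonempty → (D + 1) * W.card ≤ D * (ET sp E U W).card := by
  classical
  -- the family of dense nonempty sets
  have hne : ∃ n, ∃ U : Finset β, U.Nonempty ∧ U ⊆ VS sp E ∧
      (D + 1) * U.card ≤ D * (EI sp E U).card ∧ U.card = n := by
    refine ⟨_, VS sp E, ?_, Subset.rfl, ?_, rfl⟩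
    · obtain ⟨x, hx⟩ := hE
      obtain ⟨v, hv⟩ := hsp x hx
      exact ⟨v, mem_VS.mpr ⟨x, hx, hv⟩⟩
    · have : EI sp E (VS sp E) = E := by
        unfold EI
        refine filter_true_of_mem fun x hx v hv => mem_VS.mpr ⟨x, hx, hv⟩
      rw [this]; exact h
  obtain ⟨U, hU1, hU2, hU3, hU4⟩ := Nat.find_spec hne
  have hmin : ∀ U' : Finset β, U'.Nonempty → U' ⊆ VS sp E → U'.card < U.card →
      D * (EI sp E U').card < (D + 1) * U'.card := by
    intro U' h1 h2 h3
    by_contra hc
    push Not at hc
    rw [hU4] at h3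
    exact Nat.find_min hne h3 ⟨U', h1, h2, hc, rfl⟩
  refine ⟨U, hU1, hU2, fun W hW hWne => ?_⟩
  have hsplit : (EI sp E U).card = (ET sp E U W).card + (EI sp E (U \ W)).card := by
    have : EI sp E (U \ W) = (EI sp E U).filter fun x => ¬ (sp x ∩ W).Nonempty := by
      ext x
      simp only [EI, mem_filter, not_nonempty_iff_eq_empty]
      constructor
      · rintro ⟨h1, h2⟩
        refine ⟨⟨h1, h2.trans sdiff_subset⟩, ?_⟩
        rw [eq_empty_iff_forall_notMem]
        intro v hv
        rw [mem_inter] at hv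
        exact (mem_sdiff.mp (h2 hv.1)).2 hv.2
      · rintro ⟨⟨h1, h2⟩, h3⟩
        refine ⟨h1, fun v hv => mem_sdiff.mpr ⟨h2 hv, fun hvW => ?_⟩⟩
        have : v ∈ sp x ∩ W := mem_inter.mpr ⟨hv, hvW⟩
        rw [h3] at this
        exact absurd this (notMem_empty v)
    rw [this, ET]
    exact (card_filter_add_card_filter_not _).symm
  rcases (U \ W).eq_empty_or_nonempty with hemp | hne'
  · have hWU : W = U := Subset.antisymm hW (sdiff_eq_empty_iff_subset.mp hemp)
    have h0 : (EI sp E (U \ W)).card = 0 := by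
      rw [hemp, card_eq_zero]
      unfold EI
      refine filter_eq_empty_iff.mpr fun x hx hc => ?_
      have := hsp x hx
      rw [subset_empty.mp hc] at this
      exact absurd this (by simp)
    rw [h0, add_zero] at hsplit
    rw [← hsplit, hWU]
    exact hU3
  · have hlt : (U \ W).card < U.card := by
      apply card_lt_card
      rw [ssubset_iff_subset_ne]
      refine ⟨sdiff_subset, fun hc => ?_⟩
      obtain ⟨w, hw⟩ := hWne
      have : w ∈ U \ W := by rw [hc]; exact hW hw
      exact (mem_sdiff.mp this).2 hw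
    have h1 := hmin (U \ W) hne' (sdiff_subset.trans hU2) hlt
    have h2 : (U \ W).card + W.card = U.card := card_sdiff_add_card_eq_card hW
    rw [hsplit, ← h2] at hU3
    nlinarith

/-- breadth first layers -/
def layer (sp : α → Finset β) (E : Finset α) (U : Finset β) (u : β) : ℕ → Finset β
  | 0 => {u}
  | n + 1 => layer sp E U u n ∪ VS sp (ET sp E U (layer sp E U u n))

lemma layer_subset {sp : α → Finset β} {E : Finset α} {U : Finset β} {u : β} (hu : u ∈ U) (n : ℕ) :
    layer sp E U u n ⊆ U := by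
  induction n with
  | zero => simpa [layer] using hu
  | succ n ih =>
    rw [layer]
    refine union_subset ih fun v hv => ?_
    obtain ⟨x, hx, hvx⟩ := mem_VS.mp hv
    rw [ET, mem_filter, EI, mem_filter] at hx
    exact hx.1.2 hvx

lemma layer_mono_succ {sp : α → Finset β} {E : Finset α} {U : Finset β} {u : β} (n : ℕ) :
    layer sp E U u n ⊆ layer sp E U u (n + 1) := by
  rw [layer]; exact subset_union_left

lemma layer_mono {sp : α → Finset β} {E : Finset α} {U : Finset β} {u : β} {m n : ℕ} (h : m ≤ n) :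
    layer sp E U u m ⊆ layer sp E U u n := by
  induction n, h using Nat.le_induction with
  | base => exact Subset.rfl
  | succ n _ ih => exact ih.trans (layer_mono_succ n)

lemma mem_layer {sp : α → Finset β} {E : Finset α} {U : Finset β} {u : β} (n : ℕ) :
    u ∈ layer sp E U u n := layer_mono (Nat.zero_le n) (by simp [layer])

/-- some ball of small radius is dense -/
lemma exists_ball (sp : α → Finset β) (E : Finset α) (D : ℕ) (U : Finset β) (u : β)
    (hu : u ∈ U) (h : ∀ W ⊆ U, W.Nonempty → (D + 1) * W.card ≤ D * (ET sp E U W).card)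
    (ρ : ℕ) (hρ : (U.card : ℝ) < (1 + 1 / (2 * D : ℝ)) ^ ρ) (hD : 1 ≤ D) :
    ∃ i ≤ ρ, (layer sp E U u i).card + 1 ≤ (EI sp E (layer sp E U u i)).card := by
  by_contra hc
  push Not at hc
  have hD' : (0 : ℝ) < D := by exact_mod_cast hD
  have key : ∀ i ≤ ρ, (1 + 1 / (2 * D : ℝ)) ^ i ≤ (layer sp E U u i).card := by
    intro i
    induction i with
    | zero => intro _; simp [layer]
    | succ i ih =>
      intro hi
      have h1 := ih (by omega)
      have h2 := hc (i + 1) hi
      have h3 : (EI sp E (layer sp E U u (i + 1))).card ≤ (layer sp E U u (i + 1)).card := by omega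
      have h4 : ET sp E U (layer sp E U u i) ⊆ EI sp E (layer sp E U u (i + 1)) := by
        intro x hx
        rw [EI, mem_filter]
        have hx' := hx
        rw [ET, mem_filter, EI, mem_filter] at hx'
        refine ⟨hx'.1.1, fun v hv => ?_⟩
        rw [layer, mem_union]
        exact Or.inr (mem_VS.mpr ⟨x, hx, hv⟩)
      have h5 := card_le_card h4
      have h6 := h (layer sp E U u i) (layer_subset hu i) ⟨u, mem_layer i⟩
      have h7 : (D + 1) * (layer sp E U u i).card ≤ D * (layer sp E U u (i + 1)).card :=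
        h6.trans (Nat.mul_le_mul_left D (h5.trans h3))
      have h8 : ((D : ℝ) + 1) * (layer sp E U u i).card ≤ D * (layer sp E U u (i + 1)).card := by
        exact_mod_cast h7
      rw [pow_succ]
      have h9 : (0 : ℝ) ≤ (layer sp E U u i).card := Nat.cast_nonneg _
      have h10 : (1 + 1 / (2 * D : ℝ)) ≤ (D + 1) / D := by
        rw [le_div_iff₀ hD']
        field_simp
        linarith
      calc (1 + 1 / (2 * D : ℝ)) ^ i * (1 + 1 / (2 * D : ℝ))
          ≤ (layer sp E U u i).card * ((D + 1) / D) :=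
            mul_le_mul h1 h10 (by positivity) h9
        _ = ((D + 1) * (layer sp E U u i).card) / D := by ring
        _ ≤ (layer sp E U u (i + 1)).card := by
            rw [div_le_iff₀ hD']
            linarith
  have h1 := key ρ le_rfl
  have h2 : ((layer sp E U u ρ).card : ℝ) ≤ U.card := by
    exact_mod_cast card_le_card (layer_subset hu ρ)
  linarith

/-- a small set of excess one inside a dense ball -/
lemma small_of_ball (sp : α → Finset β) (E : Finset α) (U : Finset β) (u : β) (ρ : ℕ)
    (hsp : ∀ x ∈ E, (sp x).Nonempty ∧ (sp x).card ≤ 2)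
    (h : (layer sp E U u ρ).card + 1 ≤ (EI sp E (layer sp E U u ρ)).card) :
    ∃ S ⊆ E, (VS sp S).card + 1 ≤ S.card ∧ S.card ≤ 4 * (ρ + 1) + 2 := by
  classical
  set W := layer sp E U u ρ with hW
  -- level function
  have hlev : ∀ w ∈ W, ∃ n, w ∈ layer sp E U u n := fun w hw => ⟨ρ, hw⟩
  -- parent data
  have hpar : ∀ w ∈ W, w ≠ u → ∃ n, n < ρ ∧ w ∈ layer sp E U u (n + 1) ∧
      w ∉ layer sp E U u n ∧ ∃ x ∈ E, ∃ w' ∈ layer sp E U u n, sp x = {w, w'} := by
    intro w hw hwu
    have hex : ∃ n, w ∈ layer sp E U u n := ⟨ρ, hw⟩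
    have h0 : Nat.find hex ≠ 0 := by
      intro h0
      have := Nat.find_spec hex
      rw [h0] at this
      simp [layer] at this
      exact hwu this
    obtain ⟨n, hn⟩ := Nat.exists_eq_succ_of_ne_zero h0
    have h1 : w ∈ layer sp E U u (n + 1) := by
      have := Nat.find_spec hex
      rwa [hn] at this
    have h2 : w ∉ layer sp E U u n := Nat.find_min hex (by omega)
    have h3 : Nat.find hex ≤ ρ := Nat.find_min' hex hw
    refine ⟨n, by omega, h1, h2, ?_⟩
    rw [layer, mem_union] at h1
    rcases h1 with h1 | h1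
    · exact absurd h1 h2
    obtain ⟨x, hx, hwx⟩ := mem_VS.mp h1
    rw [ET, mem_filter, EI, mem_filter] at hx
    obtain ⟨⟨hxE, _⟩, w', hw'⟩ := hx
    rw [mem_inter] at hw'
    refine ⟨x, hxE, w', hw'.2, ?_⟩
    have hne : w ≠ w' := fun hc => h2 (hc ▸ hw'.2)
    symm
    apply eq_of_subset_of_card_le
    · intro v hv
      rw [mem_insert, mem_singleton] at hv
      rcases hv with rfl | rfl
      · exact hwx
      · exact hw'.1
    · rw [card_pair hne]
      exact (hsp x hxE).2
  have : Nonempty β := ⟨u⟩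
  have : Nonempty α := by
    have h1 : 0 < (EI sp E W).card := by omega
    obtain ⟨x, _⟩ := card_pos.mp h1
    exact ⟨x⟩
  choose! lv hlv1 hlv2 hlv3 tx htx par hpar1 hpar2 using hpar
  -- closed vertex sets containing a given vertex
  have hchain : ∀ n ≤ ρ, ∀ w ∈ layer sp E U u n, ∃ Z : Finset β, w ∈ Z ∧ u ∈ Z ∧ Z ⊆ W ∧
      Z.card ≤ n + 1 ∧ ∀ z ∈ Z, z ≠ u → par z ∈ Z := by
    intro n
    induction n using Nat.strong_induction_on with
    | _ n ih =>
      intro hn w hw
      by_cases hwu : w = u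
      · subst hwu
        refine ⟨{w}, by simp, by simp, ?_, by simp, ?_⟩
        · rw [singleton_subset_iff]; exact mem_layer ρ
        · intro z hz hzw
          exact absurd (mem_singleton.mp hz) hzw
      · have hwW : w ∈ W := layer_mono hn hw
        have a1 := hlv1 w hwW hwu
        have a3 := hlv3 w hwW hwu
        have a4 := hpar1 w hwW hwu
        have hlt : lv w < n := by
          by_contra hc
          push Not at hc
          exact a3 (layer_mono hc hw)
        obtain ⟨Z, z1, z2, z3, z4, z5⟩ := ih (lv w) hlt (by omega) (par w) a4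
        refine ⟨insert w Z, mem_insert_self _ _, mem_insert_of_mem z2, ?_, ?_, ?_⟩
        · exact insert_subset hwW z3
        · exact (card_insert_le _ _).trans (by omega)
        · intro z hz hzu
          rcases mem_insert.mp hz with rfl | hz
          · exact mem_insert_of_mem z1
          · exact mem_insert_of_mem (z5 z hz hzu)
  -- injectivity of the tree elements
  have hinj : ∀ w ∈ W, w ≠ u → ∀ w' ∈ W, w' ≠ u → tx w = tx w' → w = w' := by
    intro w hw hwu w' hw' hwu' heq
    by_contra hne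
    have b1 := hpar2 w hw hwu
    have b2 := hpar2 w' hw' hwu'
    rw [heq, b2] at b1
    -- {w', par w'} = {w, par w}
    have c1 : w' ∈ ({w, par w} : Finset β) := by rw [← b1]; simp
    have c2 : w ∈ ({w', par w'} : Finset β) := by rw [b1]; simp
    rw [mem_insert, mem_singleton] at c1 c2
    have c1' : w' = par w := by
      rcases c1 with c | c
      · exact absurd c.symm hne
      · exact c
    have c2' : w = par w' := by
      rcases c2 with c | c
      · exact absurd c hne
      · exact c
    have d1 := hpar1 w hw hwu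
    have d2 := hpar1 w' hw' hwu'
    have d3 := hlv3 w hw hwu
    have d4 := hlv3 w' hw' hwu'
    rw [← c1'] at d1
    rw [← c2'] at d2
    -- w' ∈ layer (lv w), w' ∉ layer (lv w'), so lv w' < lv w
    have e1 : lv w' < lv w := by
      by_contra hc
      push Not at hc
      exact d4 (layer_mono hc d1)
    have e2 : lv w < lv w' := by
      by_contra hc
      push Not at hc
      exact d3 (layer_mono hc d2)
    omega
  -- two elements outside the tree
  set TE := (W.erase u).image tx with hTE
  have huW : u ∈ W := mem_layer ρ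
  have hTEcard : TE.card + 1 ≤ W.card := by
    have h1 : TE.card ≤ (W.erase u).card := card_image_le
    have h2 := card_erase_of_mem huW
    have h3 : 0 < W.card := card_pos.mpr ⟨u, huW⟩
    omega
  have hout : 2 ≤ (EI sp E W \ TE).card := by
    have h1 := le_card_sdiff TE (EI sp E W)
    omega
  obtain ⟨y1, hy1, y2, hy2, hy12⟩ := one_lt_card.mp hout
  rw [mem_sdiff] at hy1 hy2
  have hq1 : sp y1 ⊆ W := (mem_filter.mp hy1.1).2
  have hq2 : sp y2 ⊆ W := (mem_filter.mp hy2.1).2
  have hE1 : y1 ∈ E := (mem_filter.mp hy1.1).1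
  have hE2 : y2 ∈ E := (mem_filter.mp hy2.1).1
  have hchain' : ∀ w ∈ W, ∃ Z : Finset β, w ∈ Z ∧ u ∈ Z ∧ Z ⊆ W ∧
      Z.card ≤ ρ + 1 ∧ ∀ z ∈ Z, z ≠ u → par z ∈ Z := fun w hw => hchain ρ le_rfl w hw
  choose! Zf hZ1 hZ2 hZ3 hZ4 hZ5 using hchain'
  set Q := sp y1 ∪ sp y2 with hQ
  have hQW : Q ⊆ W := union_subset hq1 hq2
  have hQcard : Q.card ≤ 4 := by
    have := card_union_le (sp y1) (sp y2)
    have h1 := (hsp y1 hE1).2
    have h2 := (hsp y2 hE2).2
    rw [hQ]
    omega
  set Z := Q.biUnion Zf with hZ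
  have hZu : u ∈ Z := by
    obtain ⟨w, hw⟩ := (hsp y1 hE1).1
    have hwQ : w ∈ Q := mem_union_left _ hw
    exact mem_biUnion.mpr ⟨w, hwQ, hZ2 w (hQW hwQ)⟩
  have hQZ : Q ⊆ Z := fun w hw => mem_biUnion.mpr ⟨w, hw, hZ1 w (hQW hw)⟩
  have hZW : Z ⊆ W := by
    intro z hz
    obtain ⟨w, hw, hz⟩ := mem_biUnion.mp hz
    exact hZ3 w (hQW hw) hz
  have hZcl : ∀ z ∈ Z, z ≠ u → par z ∈ Z := by
    intro z hz hzu
    obtain ⟨w, hw, hz⟩ := mem_biUnion.mp hz
    exact mem_biUnion.mpr ⟨w, hw, hZ5 w (hQW hw) z hz hzu⟩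
  have hZcard : Z.card ≤ 4 * (ρ + 1) := by
    have h1 : Z.card ≤ ∑ w ∈ Q, (Zf w).card := card_biUnion_le
    have h2 : ∑ w ∈ Q, (Zf w).card ≤ ∑ _w ∈ Q, (ρ + 1) := sum_le_sum fun w hw => hZ4 w (hQW hw)
    rw [sum_const, smul_eq_mul] at h2
    calc Z.card ≤ Q.card * (ρ + 1) := h1.trans h2
      _ ≤ 4 * (ρ + 1) := Nat.mul_le_mul_right _ hQcard
  set T := (Z.erase u).image tx with hT
  have hTcard : T.card + 1 = Z.card := by
    have h1 : T.card = (Z.erase u).card := by
      apply card_image_of_injOn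
      intro w hw w' hw' heq
      rw [mem_coe, mem_erase] at hw hw'
      exact hinj w (hZW hw.2) hw.1 w' (hZW hw'.2) hw'.1 heq
    have h2 := card_erase_of_mem hZu
    have h3 : 0 < Z.card := card_pos.mpr ⟨u, hZu⟩
    omega
  have hTTE : T ⊆ TE := image_subset_image (erase_subset_erase u hZW)
  have n1 : y1 ∉ T := fun hc => hy1.2 (hTTE hc)
  have n2 : y2 ∉ T := fun hc => hy2.2 (hTTE hc)
  have n3 : y1 ∉ insert y2 T := by
    rw [mem_insert]
    rintro (hc | hc)
    · exact hy12 hc
    · exact n1 hc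
  refine ⟨insert y1 (insert y2 T), ?_, ?_, ?_⟩
  · refine insert_subset hE1 (insert_subset hE2 ?_)
    intro x hx
    obtain ⟨w, hw, rfl⟩ := mem_image.mp hx
    rw [mem_erase] at hw
    exact htx w (hZW hw.2) hw.1
  · have hV : VS sp (insert y1 (insert y2 T)) ⊆ Z := by
      intro v hv
      obtain ⟨x, hx, hvx⟩ := mem_VS.mp hv
      rcases mem_insert.mp hx with rfl | hx
      · exact hQZ (mem_union_left _ hvx)
      rcases mem_insert.mp hx with rfl | hx
      · exact hQZ (mem_union_right _ hvx)
      obtain ⟨w, hw, rfl⟩ := mem_image.mp hx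
      rw [mem_erase] at hw
      rw [hpar2 w (hZW hw.2) hw.1, mem_insert, mem_singleton] at hvx
      rcases hvx with rfl | rfl
      · exact hw.2
      · exact hZcl w hw.2 hw.1
    have := card_le_card hV
    rw [card_insert_of_notMem n3, card_insert_of_notMem n2]
    omega
  · rw [card_insert_of_notMem n3, card_insert_of_notMem n2]
    omega

/-- the constant of the small subgraph lemma -/
noncomputable def LL (D n : ℕ) : ℕ :=
  4 * (⌈Real.log (n + 2) / Real.log (1 + 1 / (2 * D : ℝ))⌉₊ + 1) + 2

lemma one_lt_base (D : ℕ) (hD : 1 ≤ D) : 1 < (1 + 1 / (2 * D : ℝ)) := by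
  have hD' : (0 : ℝ) < D := by exact_mod_cast hD
  have : 0 < 1 / (2 * D : ℝ) := by positivity
  linarith

/-- D1 -/
theorem exists_small (sp : α → Finset β) (E : Finset α) (D n : ℕ) (hD : 1 ≤ D) (hE : E.Nonempty)
    (hsp : ∀ x ∈ E, (sp x).Nonempty ∧ (sp x).card ≤ 2) (hn : (VS sp E).card ≤ n)
    (h : (D + 1) * (VS sp E).card ≤ D * E.card) :
    ∃ S ⊆ E, (VS sp S).card + 1 ≤ S.card ∧ S.card ≤ LL D n := by
  obtain ⟨U, ⟨u, hu⟩, hU, hex⟩ := exists_min_dense sp E D hE (fun x hx => (hsp x hx).1) h
  have hb := one_lt_base D hD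
  set b := (1 + 1 / (2 * D : ℝ)) with hbdef
  set ρ := ⌈Real.log (n + 2) / Real.log b⌉₊ with hρ
  have hlogb : 0 < Real.log b := Real.log_pos hb
  have h1 : Real.log (n + 2) / Real.log b ≤ ρ := Nat.le_ceil _
  rw [div_le_iff₀ hlogb] at h1
  have h2 : (n : ℝ) + 2 ≤ b ^ ρ := by
    rw [← Real.log_le_log_iff (by positivity) (by positivity), Real.log_pow]
    exact h1
  have h3 : (U.card : ℝ) < b ^ ρ := by
    have : (U.card : ℝ) ≤ n := by exact_mod_cast (card_le_card hU).trans hn
    linarith
  obtain ⟨i, hi, hball⟩ := exists_ball sp E D U u hu hex ρ h3 hD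
  obtain ⟨S, hS1, hS2, hS3⟩ := small_of_ball sp E U u i hsp hball
  refine ⟨S, hS1, hS2, hS3.trans ?_⟩
  unfold LL
  rw [← hbdef, ← hρ]
  omega

/-- D2 -/
theorem exists_small_excess (sp : α → Finset β) (D n : ℕ) (hD : 1 ≤ D) (t : ℕ) :
    ∀ E : Finset α, (∀ x ∈ E, (sp x).Nonempty ∧ (sp x).card ≤ 2) → (VS sp E).card ≤ n →
    (D + 1) * (VS sp E).card + D * (t * LL D n) + 1 ≤ D * E.card →
    ∃ S ⊆ E, (VS sp S).card + t ≤ S.card ∧ S.card ≤ t * LL D n := by
  induction t with
  | zero =>
    intro E _ _ _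
    exact ⟨∅, empty_subset _, by simp [VS], by simp⟩
  | succ t ih =>
    intro E hsp hn h
    have hE : E.Nonempty := by
      rw [← card_pos]
      by_contra hc
      have : E.card = 0 := by omega
      rw [this] at h
      simp at h
    obtain ⟨S₁, a1, a2, a3⟩ := exists_small sp E D n hD hE hsp hn (by omega)
    have hVS : VS sp (E \ S₁) ⊆ VS sp E := VS_mono sdiff_subset
    have hVSc := card_le_card hVS
    have hcard : (E \ S₁).card + S₁.card = E.card := card_sdiff_add_card_eq_card a1
    obtain ⟨S₂, b1, b2, b3⟩ := ih (E \ S₁) (fun x hx => hsp x (mem_sdiff.mp hx).1)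
      (hVSc.trans hn) (by
        have e1 : D * E.card = D * (E \ S₁).card + D * S₁.card := by rw [← hcard]; ring
        have e2 : D * S₁.card ≤ D * LL D n := Nat.mul_le_mul_left D a3
        have e3 : D * ((t + 1) * LL D n) = D * (t * LL D n) + D * LL D n := by ring
        have e4 : (D + 1) * (VS sp (E \ S₁)).card ≤ (D + 1) * (VS sp E).card :=
          Nat.mul_le_mul_left _ hVSc
        omega)
    have hdisj : Disjoint S₁ S₂ := by
      rw [disjoint_left]
      intro x hx hx2
      exact (mem_sdiff.mp (b1 hx2)).2 hx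
    refine ⟨S₁ ∪ S₂, union_subset a1 (b1.trans sdiff_subset), ?_, ?_⟩
    · rw [card_union_of_disjoint hdisj, VS_union]
      have := card_union_le (VS sp S₁) (VS sp S₂)
      omega
    · rw [card_union_of_disjoint hdisj]
      have e3 : (t + 1) * LL D n = t * LL D n + LL D n := by ring
      omega

end LG
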