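import Pool.Agent.Lib.LG.Mat

/-!
# Bounded girth for duals of bounded rank perturbations of frame matrices
-/

open Finset Module
open scoped Matroid

set_option linter.unusedSectionVars false

namespace LG

/-- a functional whose support is coindependent vanishes -/
lemma functional_zero {F : Type} [Field F] {α : Type} {m : ℕ} {M : Matroid α}
    {v : α → (Fin m → F)} (h : Rep M v) (ψ : Dual F (Fin m → F))
    (hψ : M✶.Indep {x | x ∈ M.E ∧ ψ (v x) ≠ 0}) : ∀ x ∈ M.E, ψ (v x) = 0 := by
  rw [Matroid.dual_indep_iff_exists'] at hψ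
  obtain ⟨_, B, hB, hdisj⟩ := hψ
  intro x hx
  have h2 := h.mem_span hB.isBasis_ground hx
  have h3 : Submodule.span F (v '' B) ≤ LinearMap.ker ψ := by
    rw [Submodule.span_le]
    rintro _ ⟨y, hy, rfl⟩
    rw [SetLike.mem_coe, LinearMap.mem_ker]
    by_contra hne
    exact Set.disjoint_left.mp hdisj ⟨hB.subset_ground hy, hne⟩ hy
  exact LinearMap.mem_ker.mp (h3 h2)

/-- many distinct rows -/
lemma exists_rows {F : Type} [Field F] {α : Type} {m : ℕ} (a : α → (Fin m → F)) (A : Finset α) :
    ∃ R : Finset (Fin m), R.card = finrank F (Submodule.span F (a '' (A : Set α))) ∧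
      ∀ i ∈ R, ∀ j ∈ R, i ≠ j → ∃ x ∈ A, a x i ≠ a x j := by
  classical
  let Mx : Matrix (Fin m) A F := fun i x => a x i
  have hcol : Set.range Mx.col = a '' (A : Set α) := by
    ext y
    constructor
    · rintro ⟨x, rfl⟩
      exact ⟨x, x.2, rfl⟩
    · rintro ⟨x, hx, rfl⟩
      exact ⟨⟨x, hx⟩, rfl⟩
  have h1 : finrank F (Submodule.span F (a '' (A : Set α))) =
      finrank F (Submodule.span F (Set.range Mx.row)) := by
    rw [← hcol, ← Matrix.rank_eq_finrank_span_cols, Matrix.rank_eq_finrank_span_row]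
  obtain ⟨b, hb1, hb2, hb3⟩ := exists_linearIndependent F (Set.range Mx.row)
  have hbfin : b.Finite := (Set.finite_range _).subset hb1
  have : Fintype b := hbfin.fintype
  have hcard : finrank F (Submodule.span F (Set.range Mx.row)) = b.toFinset.card := by
    rw [← hb2]
    have := finrank_span_eq_card hb3
    rw [Subtype.range_coe] at this
    rw [this, Set.toFinset_card]
  have hex : ∀ u ∈ b, ∃ i, Mx.row i = u := fun u hu => hb1 hu
  rcases b.toFinset.eq_empty_or_nonempty with hemp | ⟨u0, hu0⟩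
  · refine ⟨∅, ?_, by simp⟩
    rw [h1, hcard, hemp]
    simp
  have : Nonempty (Fin m) := (hex u0 (Set.mem_toFinset.mp hu0)).nonempty
  choose! f hf using hex
  refine ⟨b.toFinset.image f, ?_, ?_⟩
  · rw [h1, hcard]
    apply card_image_of_injOn
    intro u hu u' hu' heq
    rw [mem_coe, Set.mem_toFinset] at hu hu'
    rw [← hf u hu, ← hf u' hu', heq]
  · intro i hi j hj hij
    obtain ⟨u, hu, rfl⟩ := mem_image.mp hi
    obtain ⟨u', hu', rfl⟩ := mem_image.mp hj
    rw [Set.mem_toFinset] at hu hu'
    have hne : u ≠ u' := fun h => hij (by rw [h])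
    rw [← hf u hu, ← hf u' hu'] at hne
    obtain ⟨x, hx⟩ := Function.ne_iff.mp hne
    exact ⟨x, x.2, hx⟩

/-- coframe side -/
theorem coframe_girth (F : Type) [Field F] [Fintype F] (s lam : ℕ) :
    ∃ c : ℕ, ∀ (α : Type) [Fintype α] (M : Matroid α) (m : ℕ) (w a p : α → (Fin m → F)),
      ∀ A : Set α, M.Dep A →
      (∀ I : Set α, (M ↾ A)✶.Indep I ↔ (I ⊆ A ∧ LinearIndependent F (fun x : I => w x))) →
      (∀ x ∈ A, w x = a x + p x) →
      (∀ x ∈ A, {i | a x i ≠ 0}.ncard ≤ 2) →
      finrank F (Submodule.span F (p '' A)) ≤ s →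
      ∀ B : Set α, M.IsBasis B A → A.ncard ≤ lam * (A.ncard - B.ncard) →
        ∃ C : Set α, C ⊆ A ∧ M.IsCircuit C ∧ C.ncard ≤ c := by
  classical
  refine ⟨8 * lam + lam * (2 * (Fintype.card F ^ s + s)), ?_⟩
  intro α _ M m w a p A hdep hrep hw hfr hp B hB hdens
  have hAE := hdep.subset_ground
  have hrep' : Rep (M ↾ A)✶ w := hrep
  have hE : (M ↾ A)✶.E = A := rfl
  -- rank of the dual
  have hbase : (M ↾ A).IsBase B := hB.isBase_restrict
  have hbase' : (M ↾ A)✶.IsBase (A \ B) := hbase.compl_isBase_dual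
  have ht : finrank F (Submodule.span F (w '' A)) = (A \ B).ncard := by
    have := hrep'.finrank_eq hbase'.isBasis_ground
    exact this
  have ht' : (A \ B).ncard = A.ncard - B.ncard := Set.ncard_sdiff hB.subset (Set.toFinite _)
  set t := A.ncard - B.ncard with htdef
  rw [ht'] at ht
  set Af : Finset α := A.toFinset with hAf
  have hAc : (Af : Set α) = A := by simp [hAf]
  have hAcard : A.ncard = Af.card := by rw [← hAc, Set.ncard_coe_finset]
  have hfr' : ∀ x ∈ Af, (sp a x).card ≤ 2 := by
    intro x hx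
    have h1 := hfr x (by rw [← hAc]; exact mem_coe.mpr hx)
    have h2 : {i | a x i ≠ 0} = ((sp a x : Finset (Fin m)) : Set (Fin m)) := by
      ext i
      rw [mem_coe, mem_sp]
      rfl
    rw [h2, Set.ncard_coe_finset] at h1
    exact h1
  obtain ⟨R, hR1, hR2⟩ := exists_rows a Af
  have hRt : t ≤ R.card + s := by
    rw [hR1, ← ht]
    have h3 : Submodule.span F (w '' A) ≤
        Submodule.span F (a '' (Af : Set α)) ⊔ Submodule.span F (p '' A) := by
      rw [Submodule.span_le]
      rintro _ ⟨x, hx, rfl⟩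
      rw [hw x hx]
      exact Submodule.add_mem_sup (Submodule.subset_span ⟨x, by rw [hAc]; exact hx, rfl⟩)
        (Submodule.subset_span ⟨x, hx, rfl⟩)
    have h4 := Submodule.finrank_mono h3
    have h5 := Submodule.finrank_add_le_finrank_add_finrank
      (Submodule.span F (a '' (Af : Set α))) (Submodule.span F (p '' A))
    omega
  -- degrees
  have hdeg : ∑ i ∈ R, (Af.filter fun x => i ∈ sp a x).card ≤ 2 * Af.card := by
    calc ∑ i ∈ R, (Af.filter fun x => i ∈ sp a x).card
        ≤ ∑ i : Fin m, (Af.filter fun x => i ∈ sp a x).card :=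
          sum_le_univ_sum_of_nonneg fun _ => Nat.zero_le _
      _ = ∑ i : Fin m, ∑ x ∈ Af.filter (fun x => i ∈ sp a x), 1 := by simp
      _ = ∑ x ∈ Af, ∑ i ∈ sp a x, 1 := by
          apply sum_comm'
          intro i x
          simp only [mem_univ, true_and, mem_filter]
          exact ⟨fun h => ⟨h.2, h.1⟩, fun h => ⟨h.2, h.1⟩⟩
      _ ≤ ∑ x ∈ Af, 2 := by
          refine sum_le_sum fun x hx => ?_
          simpa using hfr' x hx
      _ = 2 * Af.card := by rw [sum_const, smul_eq_mul, mul_comm]
  set Lo := R.filter fun i => (Af.filter fun x => i ∈ sp a x).card ≤ 4 * lam with hLo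
  set Hi := R.filter fun i => ¬ (Af.filter fun x => i ∈ sp a x).card ≤ 4 * lam with hHi
  have hsplit : Lo.card + Hi.card = R.card := card_filter_add_card_filter_not _
  have hHi2 : Hi.card * (4 * lam + 1) ≤ 2 * Af.card := by
    refine le_trans ?_ hdeg
    have h1 : ∑ i ∈ Hi, (4 * lam + 1) ≤ ∑ i ∈ Hi, (Af.filter fun x => i ∈ sp a x).card := by
      refine sum_le_sum fun i hi => ?_
      have := (mem_filter.mp hi).2
      omega
    rw [sum_const, smul_eq_mul] at h1
    exact h1.trans (sum_le_sum_of_subset (filter_subset _ _))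
  have hHi3 : 2 * Hi.card ≤ t := by
    rw [← hAcard] at hHi2
    by_contra hc
    push Not at hc
    have h1 : Hi.card * (4 * lam + 1) ≤ 2 * (lam * t) := hHi2.trans (by omega)
    nlinarith
  by_cases hlow : Fintype.card F ^ s < Lo.card
  · obtain ⟨i, hi, j, hj, hij, e1, _⟩ := exists_eq_on (Submodule.span F (p '' A)) ⊥ (s := s) (k := 0)
      hp (by simp) Lo (fun i => LinearMap.proj (R := F) (φ := fun _ : Fin m => F) i)
      (by simpa using hlow)
    have hiR := (mem_filter.mp hi).1
    have hjR := (mem_filter.mp hj).1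
    obtain ⟨x0, hx0, hne⟩ := hR2 i hiR j hjR hij
    have hx0A : x0 ∈ A := by rw [← hAc]; exact mem_coe.mpr hx0
    set ψ : Dual F (Fin m → F) := LinearMap.proj (R := F) (φ := fun _ : Fin m => F) i -
      LinearMap.proj (R := F) (φ := fun _ : Fin m => F) j with hψ
    have hval : ∀ x ∈ A, ψ (w x) = a x i - a x j := by
      intro x hx
      have h1 := e1 (p x) (Submodule.subset_span ⟨x, hx, rfl⟩)
      simp only [LinearMap.proj_apply] at h1
      rw [hψ, LinearMap.sub_apply, LinearMap.proj_apply, LinearMap.proj_apply, hw x hx,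
        Pi.add_apply, Pi.add_apply, h1]
      ring
    set S := {x | x ∈ (M ↾ A)✶.E ∧ ψ (w x) ≠ 0} with hS
    have hSA : S ⊆ A := fun x hx => hx.1
    have hSdep : M.Dep S := by
      rw [Matroid.dep_iff]
      refine ⟨fun hind => ?_, hSA.trans hAE⟩
      have h1 : (M ↾ A)✶✶.Indep S := by
        rw [Matroid.dual_dual, Matroid.restrict_indep_iff]
        exact ⟨hind, hSA⟩
      have h2 := functional_zero hrep' ψ h1 x0 hx0A
      rw [hval x0 hx0A] at h2
      exact hne (sub_eq_zero.mp h2)
    have hScard : S.ncard ≤ 8 * lam := by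
      have h1 : S ⊆ (((Af.filter fun x => i ∈ sp a x) ∪ (Af.filter fun x => j ∈ sp a x) :
          Finset α) : Set α) := by
        intro x hx
        have hxA := hSA hx
        have hxf : x ∈ Af := by rw [← mem_coe, hAc]; exact hxA
        have h2 := hx.2
        rw [hval x hxA] at h2
        rw [mem_coe, mem_union, mem_filter, mem_filter, mem_sp, mem_sp]
        by_contra hcon
        push Not at hcon
        rw [hcon.1 hxf, hcon.2 hxf, sub_self] at h2
        exact h2 rfl
      have h2 := Set.ncard_le_ncard h1 (Set.toFinite _)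
      rw [Set.ncard_coe_finset] at h2
      have h3 := card_union_le (Af.filter fun x => i ∈ sp a x) (Af.filter fun x => j ∈ sp a x)
      have h4 := (mem_filter.mp hi).2
      have h5 := (mem_filter.mp hj).2
      omega
    obtain ⟨C, hC1, hC2⟩ := hSdep.exists_isCircuit_subset
    refine ⟨C, hC1.trans hSA, hC2, ?_⟩
    have := Set.ncard_le_ncard hC1 (Set.toFinite _)
    omega
  · push Not at hlow
    have ht2 : t ≤ 2 * (Fintype.card F ^ s + s) := by omega
    obtain ⟨C, hC1, hC2⟩ := hdep.exists_isCircuit_subset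
    refine ⟨C, hC1, hC2, ?_⟩
    have h1 := Set.ncard_le_ncard hC1 (Set.toFinite _)
    have h2 : lam * t ≤ lam * (2 * (Fintype.card F ^ s + s)) := Nat.mul_le_mul_left _ ht2
    omega

end LG
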