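import Pool.Agent.Lib.LG.Frame

/-!
# Counting vertices of degree two
-/

open Finset Module

set_option linter.unusedSectionVars false

namespace LG

variable {F : Type} [Field F] {α : Type} {m : ℕ}

open Classical in
/-- the elements with nonzero frame vector -/
noncomputable def E1 (a : α → (Fin m → F)) (A : Finset α) : Finset α :=
  A.filter fun x => (sp a x).Nonempty

open Classical in
/-- the vertices -/
noncomputable def Vt (a : α → (Fin m → F)) (A : Finset α) : Finset (Fin m) := VS (sp a) (E1 a A)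

open Classical in
/-- the elements at a vertex -/
noncomputable def inc (a : α → (Fin m → F)) (A : Finset α) (v : Fin m) : Finset α :=
  (E1 a A).filter fun x => v ∈ sp a x

open Classical in
/-- the vertices of degree two, with two links -/
noncomputable def T2 (a : α → (Fin m → F)) (A : Finset α) : Finset (Fin m) :=
  (Vt a A).filter fun v => (inc a A v).card = 2 ∧ ∀ x ∈ inc a A v, (sp a x).card = 2

open Classical in
/-- the vertices of degree one -/
noncomputable def N1 (a : α → (Fin m → F)) (A : Finset α) : Finset (Fin m) :=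
  (Vt a A).filter fun v => (inc a A v).card = 1

variable {a : α → (Fin m → F)} {A : Finset α}

lemma mem_E1 {x : α} : x ∈ E1 a A ↔ x ∈ A ∧ (sp a x).Nonempty := by simp [E1]

lemma mem_inc {v : Fin m} {x : α} : x ∈ inc a A v ↔ x ∈ A ∧ v ∈ sp a x := by
  rw [inc, mem_filter, mem_E1]
  exact ⟨fun h => ⟨h.1.1, h.2⟩, fun h => ⟨⟨h.1, ⟨v, h.2⟩⟩, h.2⟩⟩

lemma mem_Vt {v : Fin m} : v ∈ Vt a A ↔ (inc a A v).Nonempty := by
  classical
  rw [Vt, mem_VS]
  constructor
  · rintro ⟨x, hx, hv⟩
    exact ⟨x, mem_inc.mpr ⟨(mem_E1.mp hx).1, hv⟩⟩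
  · rintro ⟨x, hx⟩
    rw [mem_inc] at hx
    exact ⟨x, mem_E1.mpr ⟨hx.1, ⟨v, hx.2⟩⟩, hx.2⟩

lemma card_N1_le {K : ℕ} (hfr : ∀ x ∈ A, (sp a x).card ≤ 2) (h : KP a A K) :
    (N1 a A).card ≤ 2 * K := by
  classical
  have h1 : N1 a A ⊆ (A.filter fun x => IsCol a A x).biUnion (sp a) := by
    intro v hv
    rw [N1, mem_filter] at hv
    obtain ⟨x, hx⟩ := card_eq_one.mp hv.2
    have hxi : x ∈ inc a A v := by rw [hx]; simp
    have hxi' := mem_inc.mp hxi
    refine mem_biUnion.mpr ⟨x, ?_, hxi'.2⟩
    refine mem_filter.mpr ⟨hxi'.1, LinearMap.proj v, mem_sp.mp hxi'.2, ?_⟩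
    intro y hy hyx
    by_contra hne
    have : y ∈ inc a A v := mem_inc.mpr ⟨hy, mem_sp.mpr hne⟩
    rw [hx, mem_singleton] at this
    exact hyx this
  refine (card_le_card h1).trans (card_biUnion_le.trans ?_)
  have h2 : ∑ x ∈ A.filter (fun x => IsCol a A x), (sp a x).card ≤
      ∑ _x ∈ A.filter (fun x => IsCol a A x), 2 :=
    sum_le_sum fun x hx => hfr x (mem_filter.mp hx).1
  rw [sum_const, smul_eq_mul] at h2
  have h3 := card_col_le h
  omega

lemma count1 (hfr : ∀ x ∈ A, (sp a x).card ≤ 2) :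
    3 * (Vt a A).card ≤ 2 * (E1 a A).card + (T2 a A).card + 3 * (N1 a A).card := by
  classical
  have h1 : ∑ v ∈ Vt a A, ∑ x ∈ inc a A v, (3 - (sp a x).card) =
      ∑ x ∈ E1 a A, ∑ v ∈ sp a x, (3 - (sp a x).card) := by
    apply sum_comm'
    intro v x
    rw [mem_Vt, mem_inc, mem_E1]
    constructor
    · rintro ⟨_, h2, h3⟩
      exact ⟨h3, h2, ⟨v, h3⟩⟩
    · rintro ⟨h1, h2, _⟩
      exact ⟨⟨x, mem_inc.mpr ⟨h2, h1⟩⟩, h2, h1⟩
  have h2 : ∑ x ∈ E1 a A, ∑ v ∈ sp a x, (3 - (sp a x).card) = 2 * (E1 a A).card := by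
    rw [sum_congr rfl (g := fun _ => 2), sum_const, smul_eq_mul, mul_comm]
    intro x hx
    rw [mem_E1] at hx
    rw [sum_const, smul_eq_mul]
    have h3 := hfr x hx.1
    have h4 : 0 < (sp a x).card := card_pos.mpr hx.2
    have h5 : (sp a x).card = 1 ∨ (sp a x).card = 2 := by omega
    rcases h5 with h5 | h5 <;> rw [h5]
  have h3 : ∑ v ∈ Vt a A, 3 ≤ ∑ v ∈ Vt a A, (∑ x ∈ inc a A v, (3 - (sp a x).card) +
      (if v ∈ T2 a A then 1 else 0) + (if v ∈ N1 a A then 3 else 0)) := by
    refine sum_le_sum fun v hv => ?_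
    by_cases hN : v ∈ N1 a A
    · rw [if_pos hN]; omega
    rw [if_neg hN, add_zero]
    have hpos : ∀ x ∈ inc a A v, 1 ≤ 3 - (sp a x).card := by
      intro x hx
      have := hfr x (mem_inc.mp hx).1
      omega
    have hge : (inc a A v).card ≤ ∑ x ∈ inc a A v, (3 - (sp a x).card) := by
      have := sum_le_sum hpos
      rwa [sum_const, smul_eq_mul, mul_one] at this
    have hc0 : 0 < (inc a A v).card := card_pos.mpr (mem_Vt.mp hv)
    have hc1 : (inc a A v).card ≠ 1 := fun h => hN (mem_filter.mpr ⟨hv, h⟩)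
    by_cases hT : v ∈ T2 a A
    · rw [if_pos hT]
      omega
    · rw [if_neg hT, add_zero]
      by_cases hc2 : (inc a A v).card = 2
      · have : ∃ x ∈ inc a A v, (sp a x).card ≠ 2 := by
          by_contra hcon
          push Not at hcon
          exact hT (mem_filter.mpr ⟨hv, hc2, hcon⟩)
        obtain ⟨x, hx, hx2⟩ := this
        have hx1 : 0 < (sp a x).card := card_pos.mpr ⟨v, (mem_inc.mp hx).2⟩
        have hx3 := hfr x (mem_inc.mp hx).1
        have hlt : ∑ x ∈ inc a A v, 1 < ∑ x ∈ inc a A v, (3 - (sp a x).card) :=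
          sum_lt_sum hpos ⟨x, hx, by omega⟩
        rw [sum_const, smul_eq_mul, mul_one] at hlt
        omega
      · omega
  rw [sum_add_distrib, sum_add_distrib, h1, h2, sum_const, smul_eq_mul] at h3
  have h4 : ∑ v ∈ Vt a A, (if v ∈ T2 a A then 1 else 0) = (T2 a A).card := by
    rw [← sum_filter, sum_const, smul_eq_mul, mul_one]
    congr 1
    ext v
    rw [mem_filter]
    exact ⟨fun h => h.2, fun h => ⟨(mem_filter.mp h).1, h⟩⟩
  have h5 : ∑ v ∈ Vt a A, (if v ∈ N1 a A then 3 else 0) = 3 * (N1 a A).card := by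
    rw [← sum_filter, sum_const, smul_eq_mul, mul_comm]
    congr 2
    ext v
    rw [mem_filter]
    exact ⟨fun h => h.2, fun h => ⟨(mem_filter.mp h).1, h⟩⟩
  rw [h4, h5] at h3
  omega

open Classical in
/-- the series class -/
noncomputable def cls (a : α → (Fin m → F)) (A : Finset α) (x : α) : Finset α :=
  (E1 a A).filter fun y => rel a A x y

open Classical in
/-- all classes -/
noncomputable def CL (a : α → (Fin m → F)) (A : Finset α) : Finset (Finset α) :=
  (E1 a A).image (cls a A)

open Classical in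
/-- members of a class -/
noncomputable def fib (a : α → (Fin m → F)) (A : Finset α) (c : Finset α) : Finset α :=
  (E1 a A).filter fun x => cls a A x = c

open Classical in
/-- degree two vertices of a class -/
noncomputable def tc (a : α → (Fin m → F)) (A : Finset α) (c : Finset α) : Finset (Fin m) :=
  (T2 a A).filter fun v => ∀ x ∈ inc a A v, cls a A x = c

open Classical in
/-- full classes -/
noncomputable def CY (a : α → (Fin m → F)) (A : Finset α) : Finset (Finset α) :=
  (CL a A).filter fun c => (tc a A c).card = (fib a A c).card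

lemma mem_fib {c : Finset α} {x : α} : x ∈ fib a A c ↔ x ∈ E1 a A ∧ cls a A x = c := by
  simp [fib]

lemma mem_tc {c : Finset α} {v : Fin m} :
    v ∈ tc a A c ↔ v ∈ T2 a A ∧ ∀ x ∈ inc a A v, cls a A x = c := by
  simp [tc]

lemma cls_eq_of_rel {x y : α} (hx : x ∈ E1 a A) (hy : y ∈ E1 a A) (h : rel a A x y) :
    cls a A x = cls a A y := by
  classical
  have hxA := (mem_E1.mp hx).1
  have hyA := (mem_E1.mp hy).1
  ext z
  rw [cls, cls, mem_filter, mem_filter]
  constructor
  · rintro ⟨hz, h1⟩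
    exact ⟨hz, rel_trans hyA (mem_E1.mp hz).1 (rel_symm h) h1⟩
  · rintro ⟨hz, h1⟩
    exact ⟨hz, rel_trans hxA (mem_E1.mp hz).1 h h1⟩

lemma card_fib_le {K : ℕ} (h : KP a A K) {c : Finset α} (hc : c ∈ CL a A) :
    (fib a A c).card ≤ K := by
  classical
  rw [CL, mem_image] at hc
  obtain ⟨x, hx, rfl⟩ := hc
  have h1 : fib a A (cls a A x) ⊆ A.filter fun y => rel a A x y := by
    intro y hy
    rw [mem_fib] at hy
    rw [mem_filter]
    refine ⟨(mem_E1.mp hy.1).1, ?_⟩
    have : y ∈ cls a A y := by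
      rw [cls, mem_filter]
      exact ⟨hy.1, Or.inl rfl⟩
    rw [hy.2, cls, mem_filter] at this
    exact this.2
  exact (card_le_card h1).trans (card_class_le h x (mem_E1.mp hx).1)

lemma card_E1_eq : (E1 a A).card = ∑ c ∈ CL a A, (fib a A c).card := by
  classical
  rw [card_eq_sum_card_fiberwise (f := cls a A) (t := CL a A)]
  · rfl
  · intro x hx
    exact mem_coe.mpr (mem_image_of_mem _ hx)

lemma card_E1_le {K : ℕ} (h : KP a A K) : (E1 a A).card ≤ K * (CL a A).card := by
  rw [card_E1_eq]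
  have := sum_le_sum (fun c hc => card_fib_le h hc (a := a) (A := A))
  rwa [sum_const, smul_eq_mul, mul_comm] at this

/-- the class of a degree two vertex -/
lemma T2_class {v : Fin m} (hv : v ∈ T2 a A) : ∃ c ∈ CL a A, v ∈ tc a A c := by
  classical
  have hv' := hv
  rw [T2, mem_filter] at hv
  obtain ⟨x, y, hxy, hinc⟩ := card_eq_two.mp hv.2.1
  have hx : x ∈ inc a A v := by rw [hinc]; simp
  have hy : y ∈ inc a A v := by rw [hinc]; simp
  have hx' := mem_inc.mp hx
  have hy' := mem_inc.mp hy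
  have hxE : x ∈ E1 a A := mem_E1.mpr ⟨hx'.1, ⟨v, hx'.2⟩⟩
  have hyE : y ∈ E1 a A := mem_E1.mpr ⟨hy'.1, ⟨v, hy'.2⟩⟩
  have hrel : rel a A x y := by
    right
    refine ⟨LinearMap.proj v, mem_sp.mp hx'.2, mem_sp.mp hy'.2, ?_⟩
    intro z hz hzx hzy
    by_contra hne
    have : z ∈ inc a A v := mem_inc.mpr ⟨hz, mem_sp.mpr hne⟩
    rw [hinc, mem_insert, mem_singleton] at this
    rcases this with h | h
    · exact hzx h
    · exact hzy h
  refine ⟨cls a A x, mem_image_of_mem _ hxE, mem_tc.mpr ⟨hv', ?_⟩⟩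
  intro z hz
  rw [hinc, mem_insert, mem_singleton] at hz
  rcases hz with rfl | rfl
  · rfl
  · exact (cls_eq_of_rel hxE hyE hrel).symm

/-- double counting inside a class -/
lemma two_tc (c : Finset α) : 2 * (tc a A c).card =
    ∑ x ∈ fib a A c, ((tc a A c).filter fun v => v ∈ sp a x).card := by
  classical
  have h1 : ∑ v ∈ tc a A c, (inc a A v).card = 2 * (tc a A c).card := by
    rw [sum_congr rfl (g := fun _ => 2), sum_const, smul_eq_mul, mul_comm]
    intro v hv
    have := (mem_tc.mp hv).1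
    rw [T2, mem_filter] at this
    exact this.2.1
  rw [← h1]
  have h2 : ∑ v ∈ tc a A c, (inc a A v).card = ∑ v ∈ tc a A c, ∑ x ∈ inc a A v, 1 := by simp
  have h3 : ∑ x ∈ fib a A c, ((tc a A c).filter fun v => v ∈ sp a x).card =
      ∑ x ∈ fib a A c, ∑ v ∈ (tc a A c).filter (fun v => v ∈ sp a x), 1 := by simp
  rw [h2, h3]
  apply sum_comm'
  intro v x
  rw [mem_filter, mem_fib]
  constructor
  · rintro ⟨hv, hx⟩
    have hx' := mem_inc.mp hx
    exact ⟨⟨hv, hx'.2⟩, mem_E1.mpr ⟨hx'.1, ⟨v, hx'.2⟩⟩, (mem_tc.mp hv).2 x hx⟩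
  · rintro ⟨⟨hv, hvx⟩, hxE, _⟩
    exact ⟨hv, mem_inc.mpr ⟨(mem_E1.mp hxE).1, hvx⟩⟩

lemma tc_sp_le (hfr : ∀ x ∈ A, (sp a x).card ≤ 2) {c : Finset α} {x : α} (hx : x ∈ fib a A c) :
    ((tc a A c).filter fun v => v ∈ sp a x).card ≤ 2 := by
  classical
  refine (card_le_card (t := sp a x) ?_).trans (hfr x (mem_E1.mp (mem_fib.mp hx).1).1)
  intro v hv
  exact (mem_filter.mp hv).2

lemma card_tc_le (hfr : ∀ x ∈ A, (sp a x).card ≤ 2) (c : Finset α) :
    (tc a A c).card ≤ (fib a A c).card := by
  have h1 := two_tc (a := a) (A := A) c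
  have h2 := sum_le_sum (fun x hx => tc_sp_le hfr hx (a := a) (A := A) (c := c))
  rw [sum_const, smul_eq_mul] at h2
  omega

/-- in a full class all supports are full -/
lemma sp_subset_tc (hfr : ∀ x ∈ A, (sp a x).card ≤ 2) {c : Finset α}
    (hc : (tc a A c).card = (fib a A c).card) {x : α} (hx : x ∈ fib a A c) :
    sp a x ⊆ tc a A c := by
  classical
  have h1 := two_tc (a := a) (A := A) c
  have h2 : ((tc a A c).filter fun v => v ∈ sp a x).card = 2 := by
    by_contra hne
    have h3 := tc_sp_le hfr hx (a := a) (A := A) (c := c)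
    have h4 : ∑ x ∈ fib a A c, ((tc a A c).filter fun v => v ∈ sp a x).card <
        ∑ _x ∈ fib a A c, 2 :=
      sum_lt_sum (fun y hy => tc_sp_le hfr hy) ⟨x, hx, by omega⟩
    rw [sum_const, smul_eq_mul] at h4
    omega
  have h3 : (tc a A c).filter (fun v => v ∈ sp a x) = sp a x := by
    apply eq_of_subset_of_card_le
    · intro v hv
      exact (mem_filter.mp hv).2
    · rw [h2]
      exact hfr x (mem_E1.mp (mem_fib.mp hx).1).1
  intro v hv
  rw [← h3, mem_filter] at hv
  exact hv.1

lemma count2 (hfr : ∀ x ∈ A, (sp a x).card ≤ 2) :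
    (T2 a A).card + (CL a A).card ≤ (E1 a A).card + (CY a A).card := by
  classical
  have h1 : (T2 a A).card ≤ ∑ c ∈ CL a A, (tc a A c).card := by
    refine (card_le_card (t := (CL a A).biUnion (tc a A)) ?_).trans card_biUnion_le
    intro v hv
    obtain ⟨c, hc, hvc⟩ := T2_class hv
    exact mem_biUnion.mpr ⟨c, hc, hvc⟩
  have h2 : ∑ c ∈ CL a A, ((tc a A c).card + 1) ≤
      ∑ c ∈ CL a A, ((fib a A c).card +
        (if (tc a A c).card = (fib a A c).card then 1 else 0)) := by
    refine sum_le_sum fun c _ => ?_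
    have := card_tc_le hfr c (a := a) (A := A)
    split_ifs <;> omega
  rw [sum_add_distrib, sum_add_distrib, sum_const, smul_eq_mul, mul_one, ← card_E1_eq,
    ← sum_filter, sum_const, smul_eq_mul, mul_one] at h2
  have h3 : (CY a A).card = ((CL a A).filter fun c =>
    (tc a A c).card = (fib a A c).card).card := rfl
  omega

/-- in an independent full class every element is a coloop -/
lemma col_of_full (hfr : ∀ x ∈ A, (sp a x).card ≤ 2) {c : Finset α}
    (hc : (tc a A c).card = (fib a A c).card)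
    (hind : LinearIndepOn F a (fib a A c : Set α)) {x : α} (hx : x ∈ fib a A c) :
    IsCol a A x := by
  classical
  have hnot : a x ∉ Submodule.span F (a '' ((fib a A c : Set α) \ {x})) := by
    have h1 : LinearIndepOn F a (insert x ((fib a A c : Set α) \ {x})) := by
      rw [Set.insert_sdiff_singleton, Set.insert_eq_of_mem (mem_coe.mpr hx)]
      exact hind
    exact h1.notMem_span_of_insert (by simp)
  obtain ⟨φ, hφ1, hφ2⟩ := Submodule.exists_le_ker_of_notMem hnot
  -- projection to the coordinates of the class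
  let pr : (Fin m → F) →ₗ[F] (Fin m → F) :=
    LinearMap.pi fun i => if i ∈ tc a A c then LinearMap.proj i else 0
  have hpr1 : ∀ y ∈ fib a A c, pr (a y) = a y := by
    intro y hy
    ext i
    simp only [pr, LinearMap.pi_apply]
    split_ifs with hi
    · rfl
    · by_contra hne
      have : i ∈ sp a y := mem_sp.mpr (fun h => hne (by rw [h]; rfl))
      exact hi (sp_subset_tc hfr hc hy this)
  have hpr2 : ∀ y ∈ A, y ∉ fib a A c → pr (a y) = 0 := by
    intro y hy hyc
    ext i
    simp only [pr, LinearMap.pi_apply]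
    split_ifs with hi
    · by_contra hne
      have hsp : i ∈ sp a y := mem_sp.mpr hne
      have hyi : y ∈ inc a A i := mem_inc.mpr ⟨hy, hsp⟩
      exact hyc (mem_fib.mpr ⟨mem_E1.mpr ⟨hy, ⟨i, hsp⟩⟩, (mem_tc.mp hi).2 y hyi⟩)
    · rfl
  refine ⟨φ ∘ₗ pr, ?_, ?_⟩
  · rw [LinearMap.comp_apply, hpr1 x hx]
    exact hφ1
  · intro y hy hyx
    rw [LinearMap.comp_apply]
    by_cases hyc : y ∈ fib a A c
    · rw [hpr1 y hyc]
      have : a y ∈ Submodule.span F (a '' ((fib a A c : Set α) \ {x})) :=
        Submodule.subset_span ⟨y, ⟨mem_coe.mpr hyc, by simpa using hyx⟩, rfl⟩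
      exact LinearMap.mem_ker.mp (hφ2 this)
    · rw [hpr2 y hy hyc, map_zero]

/-- a dependent class loses rank -/
lemma finrank_of_dep {S : Finset α} (h : ¬ LinearIndepOn F a (S : Set α)) :
    finrank F (Submodule.span F (a '' (S : Set α))) + 1 ≤ S.card := by
  classical
  have h1 : ¬ LinearIndependent F (fun x : S => a x) := h
  rw [linearIndependent_iff_card_le_finrank_span] at h1
  push Not at h1
  rw [Fintype.card_coe] at h1
  have h2 : Set.range (fun x : S => a x) = a '' (S : Set α) := by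
    ext y
    simp
  rw [Set.finrank, h2] at h1
  omega

lemma finrank_span_union_le (S T : Finset α) [DecidableEq α] :
    finrank F (Submodule.span F (a '' ((S ∪ T : Finset α) : Set α))) ≤
      finrank F (Submodule.span F (a '' (S : Set α))) +
        finrank F (Submodule.span F (a '' (T : Set α))) := by
  rw [coe_union, Set.image_union, Submodule.span_union]
  exact Submodule.finrank_add_le_finrank_add_finrank _ _

/-- many dependent full classes give a small very dependent set -/
lemma dep_classes {K : ℕ} (h : KP a A K) (s : ℕ) (D : Finset (Finset α)) (hD : D ⊆ CL a A)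
    (hdep : ∀ c ∈ D, ¬ LinearIndepOn F a (fib a A c : Set α)) (hs : s ≤ D.card) :
    ∃ S ⊆ A, finrank F (Submodule.span F (a '' (S : Set α))) + s ≤ S.card ∧ S.card ≤ s * K := by
  classical
  obtain ⟨D', hD', hcard⟩ := exists_subset_card_eq hs
  have key : ∀ D'' ⊆ D', ∃ S ⊆ A, (∀ x ∈ S, cls a A x ∈ D'') ∧
      finrank F (Submodule.span F (a '' (S : Set α))) + D''.card ≤ S.card ∧
      S.card ≤ D''.card * K := by
    intro D''
    induction D'' using Finset.induction_on with
    | empty =>
      intro _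
      refine ⟨∅, empty_subset _, by simp, ?_, by simp⟩
      simp
    | insert c D'' hc ih =>
      intro hsub
      obtain ⟨S, h1, h2, h3, h4⟩ := ih ((subset_insert _ _).trans hsub)
      have hcD : c ∈ D := hD' (hsub (mem_insert_self _ _))
      have hcc := hdep c hcD
      have hf := finrank_of_dep hcc
      have hk := card_fib_le h (hD hcD)
      have hdisj : Disjoint (fib a A c) S := by
        rw [disjoint_left]
        intro x hx hxS
        have := h2 x hxS
        rw [(mem_fib.mp hx).2] at this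
        exact hc this
      refine ⟨fib a A c ∪ S, ?_, ?_, ?_, ?_⟩
      · exact union_subset (fun x hx => (mem_E1.mp (mem_fib.mp hx).1).1) h1
      · intro x hx
        rcases mem_union.mp hx with hx | hx
        · rw [(mem_fib.mp hx).2]
          exact mem_insert_self _ _
        · exact mem_insert_of_mem (h2 x hx)
      · have := finrank_span_union_le (a := a) (fib a A c) S
        rw [card_insert_of_notMem hc, card_union_of_disjoint hdisj]
        omega
      · rw [card_insert_of_notMem hc, card_union_of_disjoint hdisj, add_mul, one_mul]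
        omega
  obtain ⟨S, h1, _, h3, h4⟩ := key D' Subset.rfl
  rw [hcard] at h3 h4
  exact ⟨S, h1, h3, h4⟩

/-- the number of full classes -/
lemma count3 {K : ℕ} (hfr : ∀ x ∈ A, (sp a x).card ≤ 2) (h : KP a A K) (s : ℕ) :
    (CY a A).card ≤ K + s ∨ ∃ S ⊆ A,
      finrank F (Submodule.span F (a '' (S : Set α))) + (s + 1) ≤ S.card ∧
      S.card ≤ (s + 1) * K := by
  classical
  set DI := (CY a A).filter fun c => LinearIndepOn F a (fib a A c : Set α) with hDI
  set DD := (CY a A).filter fun c => ¬ LinearIndepOn F a (fib a A c : Set α) with hDD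
  have hsplit : DI.card + DD.card = (CY a A).card := card_filter_add_card_filter_not _
  have hI : DI.card ≤ K := by
    have hne : ∀ c ∈ DI, ∃ x, x ∈ fib a A c := by
      intro c hc
      have h1 := (mem_filter.mp hc).1
      rw [CY, mem_filter, CL, mem_image] at h1
      obtain ⟨⟨x, hx, hxc⟩, _⟩ := h1
      exact ⟨x, mem_fib.mpr ⟨hx, hxc⟩⟩
    rcases DI.eq_empty_or_nonempty with hemp | ⟨c0, hc0⟩
    · rw [hemp]; simp
    have : Nonempty α := (hne c0 hc0).nonempty
    choose! f hf using hne
    have h1 : (DI.image f).card = DI.card := by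
      apply card_image_of_injOn
      intro c hc c' hc' heq
      have e1 := (mem_fib.mp (hf c hc)).2
      have e2 := (mem_fib.mp (hf c' hc')).2
      rw [← e1, ← e2]
      exact congrArg _ heq
    rw [← h1]
    refine (card_le_card ?_).trans (card_col_le h)
    intro x hx
    obtain ⟨c, hc, rfl⟩ := mem_image.mp hx
    have hc' := mem_filter.mp hc
    have hcy := (mem_filter.mp hc'.1).2
    rw [mem_filter]
    exact ⟨(mem_E1.mp (mem_fib.mp (hf c hc)).1).1, col_of_full hfr hcy hc'.2 (hf c hc)⟩
  by_cases hs : s + 1 ≤ DD.card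
  · right
    refine dep_classes h (s + 1) DD ?_ ?_ hs
    · intro c hc
      exact (mem_filter.mp (mem_filter.mp hc).1).1
    · intro c hc
      exact (mem_filter.mp hc).2
  · left
    omega

/-- the counting theorem -/
theorem count_main {K : ℕ} (hfr : ∀ x ∈ A, (sp a x).card ≤ 2) (h : KP a A K) (s : ℕ) :
    3 * K * (Vt a A).card + (E1 a A).card ≤ 3 * K * (E1 a A).card + K * (7 * K + s) ∨
    ∃ S ⊆ A, finrank F (Submodule.span F (a '' (S : Set α))) + (s + 1) ≤ S.card ∧
      S.card ≤ (s + 1) * K := by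
  rcases count3 hfr h s with h1 | h1
  swap
  · exact Or.inr h1
  left
  have c1 := count1 hfr (a := a) (A := A)
  have c2 := count2 hfr (a := a) (A := A)
  have c3 := card_N1_le hfr h
  have c4 := card_E1_le h
  have c5 : 3 * (Vt a A).card + (CL a A).card ≤ 3 * (E1 a A).card + (7 * K + s) := by omega
  calc 3 * K * (Vt a A).card + (E1 a A).card
      ≤ 3 * K * (Vt a A).card + K * (CL a A).card := by omega
    _ = K * (3 * (Vt a A).card + (CL a A).card) := by ring
    _ ≤ K * (3 * (E1 a A).card + (7 * K + s)) := Nat.mul_le_mul_left _ c5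
    _ = _ := by ring

end LG
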