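import Pool.Agent.Lib.LG.Ball

/-!
# Frame matrices with short series classes
-/

open Finset Module

set_option linter.unusedSectionVars false

namespace LG

variable {F : Type} [Field F] {α : Type} {m : ℕ}

open Classical in
/-- the support of a vector -/
noncomputable def sp (a : α → (Fin m → F)) (x : α) : Finset (Fin m) :=
  univ.filter fun i => a x i ≠ 0

lemma mem_sp {a : α → (Fin m → F)} {x : α} {i : Fin m} : i ∈ sp a x ↔ a x i ≠ 0 := by
  simp [sp]

open Classical in
/-- pigeonhole property for functionals -/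
def KP (a : α → (Fin m → F)) (A : Finset α) (K : ℕ) : Prop :=
  ∀ (ι : Type) (T : Finset ι) (φ : ι → Dual F (Fin m → F)), K < T.card →
    ∃ i ∈ T, ∃ j ∈ T, i ≠ j ∧ ((A.filter fun x => φ i (a x) ≠ φ j (a x)) = ∅ ∨
      3 ≤ (A.filter fun x => φ i (a x) ≠ φ j (a x)).card)

/-- coloops -/
def IsCol (a : α → (Fin m → F)) (A : Finset α) (x : α) : Prop :=
  ∃ φ : Dual F (Fin m → F), φ (a x) ≠ 0 ∧ ∀ y ∈ A, y ≠ x → φ (a y) = 0

/-- series pairs -/
def rel (a : α → (Fin m → F)) (A : Finset α) (x y : α) : Prop :=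
  x = y ∨ ∃ φ : Dual F (Fin m → F), φ (a x) ≠ 0 ∧ φ (a y) ≠ 0 ∧
    ∀ z ∈ A, z ≠ x → z ≠ y → φ (a z) = 0

lemma rel_symm {a : α → (Fin m → F)} {A : Finset α} {x y : α} (h : rel a A x y) : rel a A y x := by
  rcases h with h | ⟨φ, h1, h2, h3⟩
  · exact Or.inl h.symm
  · exact Or.inr ⟨φ, h2, h1, fun z hz a b => h3 z hz b a⟩

lemma rel_trans {a : α → (Fin m → F)} {A : Finset α} {x y z : α} (hx : x ∈ A) (hz : z ∈ A)
    (h1 : rel a A x y) (h2 : rel a A y z) : rel a A x z := by
  classical
  rcases h1 with h1 | ⟨φ, a1, a2, a3⟩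
  · rwa [h1]
  rcases h2 with h2 | ⟨ψ, b1, b2, b3⟩
  · rw [← h2]
    exact Or.inr ⟨φ, a1, a2, a3⟩
  by_cases hxz : x = z
  · exact Or.inl hxz
  by_cases hxy : x = y
  · rw [hxy]
    exact Or.inr ⟨ψ, b1, b2, b3⟩
  by_cases hyz : y = z
  · rw [← hyz]
    exact Or.inr ⟨φ, a1, a2, a3⟩
  right
  refine ⟨ψ (a y) • φ - φ (a y) • ψ, ?_, ?_, ?_⟩
  · simp only [LinearMap.sub_apply, LinearMap.smul_apply, smul_eq_mul]
    rw [b3 x hx hxy hxz, mul_zero, sub_zero]
    exact mul_ne_zero b1 a1
  · simp only [LinearMap.sub_apply, LinearMap.smul_apply, smul_eq_mul]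
    rw [a3 z hz (Ne.symm hxz) (Ne.symm hyz), mul_zero, zero_sub]
    exact neg_ne_zero.mpr (mul_ne_zero a2 b2)
  · intro w hw hwx hwz
    simp only [LinearMap.sub_apply, LinearMap.smul_apply, smul_eq_mul]
    by_cases hwy : w = y
    · rw [hwy]; ring
    · rw [a3 w hw hwx hwy, b3 w hw hwy hwz]; ring

open Classical in
lemma card_col_le {a : α → (Fin m → F)} {A : Finset α} {K : ℕ} (h : KP a A K) :
    (A.filter fun x => IsCol a A x).card ≤ K := by
  by_contra hc
  push Not at hc
  choose! φ hφ1 hφ2 using (fun (x : α) (hx : x ∈ A.filter fun x => IsCol a A x) =>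
    (mem_filter.mp hx).2)
  obtain ⟨i, hi, j, hj, hij, hcase⟩ := h α _ φ hc
  have hiA : i ∈ A := (mem_filter.mp hi).1
  have hjA : j ∈ A := (mem_filter.mp hj).1
  have heq : (A.filter fun x => φ i (a x) ≠ φ j (a x)) = {i, j} := by
    ext z
    rw [mem_filter, mem_insert, mem_singleton]
    constructor
    · rintro ⟨hz, hne⟩
      by_contra hcon
      push Not at hcon
      rw [hφ2 i hi z hz hcon.1, hφ2 j hj z hz hcon.2] at hne
      exact hne rfl
    · rintro (rfl | rfl)
      · refine ⟨hiA, ?_⟩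
        rw [hφ2 j hj z hiA hij]
        exact hφ1 z hi
      · refine ⟨hjA, ?_⟩
        rw [hφ2 i hi z hjA hij.symm]
        exact (hφ1 z hj).symm
  rw [heq] at hcase
  rcases hcase with hcase | hcase
  · exact absurd hcase (by simp)
  · rw [card_pair hij] at hcase
    omega

open Classical in
lemma card_class_le {a : α → (Fin m → F)} {A : Finset α} {K : ℕ} (h : KP a A K) (x : α)
    (hx : x ∈ A) : (A.filter fun y => rel a A x y).card ≤ K := by
  by_contra hc
  push Not at hc
  have hex : ∀ y ∈ A.filter (fun y => rel a A x y), ∃ φ : Dual F (Fin m → F),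
      (y = x → φ = 0) ∧ (y ≠ x → φ (a x) = 1 ∧ φ (a y) ≠ 0) ∧
        ∀ z ∈ A, z ≠ x → z ≠ y → φ (a z) = 0 := by
    intro y hy
    by_cases hyx : y = x
    · exact ⟨0, fun _ => rfl, fun hne => absurd hyx hne, fun z _ _ _ => rfl⟩
    · rcases (mem_filter.mp hy).2 with h1 | ⟨φ, h1, h2, h3⟩
      · exact absurd h1.symm hyx
      · refine ⟨(φ (a x))⁻¹ • φ, fun h => absurd h hyx, fun _ => ⟨?_, ?_⟩, ?_⟩
        · simp only [LinearMap.smul_apply, smul_eq_mul]
          exact inv_mul_cancel₀ h1
        · simp only [LinearMap.smul_apply, smul_eq_mul]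
          exact mul_ne_zero (inv_ne_zero h1) h2
        · intro z hz hzx hzy
          simp only [LinearMap.smul_apply, smul_eq_mul]
          rw [h3 z hz hzx hzy, mul_zero]
  choose! φ hφ0 hφ1 hφ2 using hex
  obtain ⟨i, hi, j, hj, hij, hcase⟩ := h α _ φ hc
  have hiA : i ∈ A := (mem_filter.mp hi).1
  have hjA : j ∈ A := (mem_filter.mp hj).1
  have heq : (A.filter fun y => φ i (a y) ≠ φ j (a y)) = {i, j} := by
    ext z
    rw [mem_filter, mem_insert, mem_singleton]
    constructor
    · rintro ⟨hz, hne⟩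
      by_contra hcon
      push Not at hcon
      by_cases hzx : z = x
      · have hi' : i ≠ x := fun h => hcon.1 (hzx.trans h.symm)
        have hj' : j ≠ x := fun h => hcon.2 (hzx.trans h.symm)
        rw [hzx, (hφ1 i hi hi').1, (hφ1 j hj hj').1] at hne
        exact hne rfl
      · rw [hφ2 i hi z hz hzx hcon.1, hφ2 j hj z hz hzx hcon.2] at hne
        exact hne rfl
    · rintro (rfl | rfl)
      · refine ⟨hiA, ?_⟩
        by_cases hzx : z = x
        · rw [hφ0 z hi hzx, hzx, (hφ1 j hj (fun h => hij (hzx.trans h.symm))).1]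
          simp
        · rw [hφ2 j hj z hiA hzx hij]
          exact (hφ1 z hi hzx).2
      · refine ⟨hjA, ?_⟩
        by_cases hzx : z = x
        · rw [hφ0 z hj hzx, hzx, (hφ1 i hi (fun h => hij (h.trans hzx.symm))).1]
          simp
        · rw [hφ2 i hi z hjA hzx hij.symm]
          exact (hφ1 z hj hzx).2.symm
  rw [heq] at hcase
  rcases hcase with hcase | hcase
  · exact absurd hcase (by simp)
  · rw [card_pair hij] at hcase
    omega

/-- a vector whose support lies in a finite set of coordinates -/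
lemma finrank_span_le_VS (a : α → (Fin m → F)) (S : Finset α) [DecidableEq α] :
    finrank F (Submodule.span F (a '' (S : Set α))) ≤ (VS (sp a) S).card := by
  classical
  set V := VS (sp a) S with hV
  have h1 : Submodule.span F (a '' (S : Set α)) ≤
      Submodule.span F ((V.image fun i => (Pi.single i (1 : F) : Fin m → F) : Finset _) : Set _) := by
    rw [Submodule.span_le]
    rintro _ ⟨x, hx, rfl⟩
    have h2 : a x = ∑ i ∈ V, a x i • (Pi.single i (1 : F) : Fin m → F) := by
      ext j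
      rw [Finset.sum_apply]
      simp only [Pi.smul_apply, Pi.single_apply, smul_eq_mul, mul_ite, mul_one, mul_zero]
      rw [Finset.sum_ite_eq]
      split_ifs with hj
      · rfl
      · by_contra hne
        exact hj (mem_VS.mpr ⟨x, hx, mem_sp.mpr hne⟩)
    rw [SetLike.mem_coe, h2]
    refine Submodule.sum_mem _ fun i hi => Submodule.smul_mem _ _ (Submodule.subset_span ?_)
    exact mem_coe.mpr (mem_image_of_mem _ hi)
  have h2 := Submodule.finrank_mono h1
  refine h2.trans ((finrank_span_finset_le_card _).trans card_image_le)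

end LG
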