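import Pool.Agent.Lib.LG.Mat

/-!
# Logarithmic girth for bounded rank perturbations of frame matrices
-/

open Finset Module

set_option linter.unusedSectionVars false

namespace LG

lemma log_add_two_ge (r : ℕ) : Real.log 2 ≤ Real.log ((r : ℝ) + 2) := by
  apply Real.log_le_log (by norm_num)
  have : (0 : ℝ) ≤ r := Nat.cast_nonneg r
  linarith

/-- a constant below the logarithm -/
lemma const_le_log (C : ℕ) (r : ℕ) : (C : ℝ) ≤ 2 * C * Real.log ((r : ℝ) + 2) := by
  have h1 := log_add_two_ge r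
  have h2 := Real.log_two_gt_d9
  have h3 : (0 : ℝ) ≤ C := Nat.cast_nonneg C
  nlinarith

lemma log_mul_le (s r n : ℕ) (hn : n ≤ 2 * (r + s)) :
    Real.log ((n : ℝ) + 2) ≤ (2 * Real.log (2 * s + 2) + 1) * Real.log ((r : ℝ) + 2) := by
  have hr : (0 : ℝ) ≤ r := Nat.cast_nonneg r
  have hs : (0 : ℝ) ≤ s := Nat.cast_nonneg s
  have hn' : (n : ℝ) ≤ 2 * (r + s) := by exact_mod_cast hn
  have h1 : Real.log ((n : ℝ) + 2) ≤ Real.log ((2 * s + 2) * ((r : ℝ) + 2)) := by
    apply Real.log_le_log (by positivity)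
    nlinarith
  rw [Real.log_mul (by positivity) (by positivity)] at h1
  have h2 := log_add_two_ge r
  have h3 := Real.log_two_gt_d9
  have h4 : 0 ≤ Real.log (2 * (s : ℝ) + 2) := Real.log_nonneg (by linarith)
  nlinarith

/-- frame side -/
theorem frame_girth (F : Type) [Field F] [Fintype F] (s k : ℕ) :
    ∃ c : ℕ, ∀ (α : Type) [Fintype α] (M : Matroid α) (m : ℕ) (v a p : α → (Fin m → F)),
      (∀ I : Set α, M.Indep I ↔ (I ⊆ M.E ∧ LinearIndependent F (fun x : I => v x))) →
      (∀ I : Set α, I ⊆ M.E → I.ncard ≤ 2 → M✶.Indep I) →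
      ∀ A : Set α, M.Dep A → M.eRk A + M.eRk (M.E \ A) ≤ M.eRk M.E + k →
      (∀ x ∈ A, v x = a x + p x) →
      (∀ x ∈ A, {i | a x i ≠ 0}.ncard ≤ 2) →
      finrank F (Submodule.span F (p '' A)) ≤ s →
      ∀ B : Set α, M.IsBasis B A →
        ∃ C : Set α, C ⊆ A ∧ M.IsCircuit C ∧
          (C.ncard : ℝ) ≤ (c : ℝ) * Real.log ((B.ncard : ℝ) + 2) := by
  classical
  set K := Fintype.card F ^ (s + k) with hKdef
  have hK : 1 ≤ K := Nat.one_le_pow _ _ Fintype.card_pos
  obtain ⟨M0, hM0⟩ := small_dep K s hK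
  have hb := one_lt_base (6 * K) (by omega)
  have hlogb : 0 < Real.log (1 + 1 / (2 * (6 * K : ℕ) : ℝ)) := Real.log_pos hb
  set β := Real.log (1 + 1 / (2 * (6 * K : ℕ) : ℝ)) with hβ
  set d : ℝ := (s + 1) * (4 / β * (2 * Real.log (2 * s + 2) + 1)) with hd
  have hls : 0 ≤ Real.log (2 * (s : ℝ) + 2) := Real.log_nonneg (by
    have : (0 : ℝ) ≤ s := Nat.cast_nonneg s
    linarith)
  have hd0 : 0 ≤ d := by positivity
  obtain ⟨c, hc⟩ := exists_nat_ge (2 * ((M0 + s : ℕ) : ℝ) + 2 * ((s + 1 : ℕ) : ℝ) +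
    2 * (((s + 1) * (K + 10) : ℕ) : ℝ) + d)
  refine ⟨c, ?_⟩
  intro α _ M m v a p hrep hcos A hdep hconn hv hfr hp B hB
  have hAE := hdep.subset_ground
  have hrep' : Rep M v := hrep
  -- finset version of A
  set Af : Finset α := A.toFinset with hAf
  have hAc : (Af : Set α) = A := by simp [hAf]
  have hfr' : ∀ x ∈ Af, (sp a x).card ≤ 2 := by
    intro x hx
    have h1 := hfr x (by rw [← hAc]; exact mem_coe.mpr hx)
    have h2 : {i | a x i ≠ 0} = ((sp a x : Finset (Fin m)) : Set (Fin m)) := by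
      ext i
      rw [mem_coe, mem_sp]
      rfl
    rw [h2, Set.ncard_coe_finset] at h1
    exact h1
  have hKP : KP a Af K := by
    refine KP_of_cosimple hrep' hcos Af (by rw [hAc]; exact hAE) (p := p) (by rw [hAc]; exact hconn)
      (fun x hx => hv x (by rw [← hAc]; exact mem_coe.mpr hx)) (by rw [hAc]; exact hp)
  -- log facts
  set L := Real.log ((B.ncard : ℝ) + 2) with hL
  have hL0 : 0 ≤ L := by
    have h1 := log_add_two_ge B.ncard
    have h2 := Real.log_two_gt_d9
    rw [← hL] at h1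
    linarith
  have hfin : ∀ N : ℕ, (N : ℝ) ≤ (2 * ((M0 + s : ℕ) : ℝ) + 2 * ((s + 1 : ℕ) : ℝ) +
    2 * (((s + 1) * (K + 10) : ℕ) : ℝ) + d) * L → (N : ℝ) ≤ c * L := fun N hN =>
    hN.trans (mul_le_mul_of_nonneg_right hc hL0)
  have hcl1 := const_le_log (M0 + s) B.ncard
  have hcl2 := const_le_log (s + 1) B.ncard
  have hcl3 := const_le_log ((s + 1) * (K + 10)) B.ncard
  rw [← hL] at hcl1 hcl2 hcl3
  have p1 : (0 : ℝ) ≤ ((M0 + s : ℕ) : ℝ) := Nat.cast_nonneg _
  have p2 : (0 : ℝ) ≤ ((s + 1 : ℕ) : ℝ) := Nat.cast_nonneg _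
  have p3 : (0 : ℝ) ≤ (((s + 1) * (K + 10) : ℕ) : ℝ) := Nat.cast_nonneg _
  have p1' := mul_nonneg p1 hL0
  have p2' := mul_nonneg p2 hL0
  have p3' := mul_nonneg p3 hL0
  have p4' := mul_nonneg hd0 hL0
  -- from a very dependent set to a circuit
  have hcirc : ∀ S ⊆ Af, finrank F (Submodule.span F (a '' (S : Set α))) + (s + 1) ≤ S.card →
      ∃ C : Set α, C ⊆ A ∧ M.IsCircuit C ∧ C.ncard ≤ S.card := by
    intro S hS hlt
    have hSA : (S : Set α) ⊆ A := by rw [← hAc]; exact coe_subset.mpr hS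
    have h1 : Submodule.span F (v '' (S : Set α)) ≤
        Submodule.span F (a '' (S : Set α)) ⊔ Submodule.span F (p '' A) := by
      rw [Submodule.span_le]
      rintro _ ⟨x, hx, rfl⟩
      rw [hv x (hSA hx)]
      exact Submodule.add_mem_sup (Submodule.subset_span ⟨x, hx, rfl⟩)
        (Submodule.subset_span ⟨x, hSA hx, rfl⟩)
    have h2 := Submodule.finrank_mono h1
    have h3 := Submodule.finrank_add_le_finrank_add_finrank
      (Submodule.span F (a '' (S : Set α))) (Submodule.span F (p '' A))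
    have h4 : finrank F (Submodule.span F (v '' (S : Set α))) < S.card := by omega
    have h5 := hrep'.dep_of_finrank_lt (hSA.trans hAE) h4
    obtain ⟨C, hC1, hC2⟩ := h5.exists_isCircuit_subset
    refine ⟨C, hC1.trans hSA, hC2, ?_⟩
    have := Set.ncard_le_ncard hC1 (Set.toFinite _)
    rwa [Set.ncard_coe_finset] at this
  by_cases hz : s + 1 ≤ (Af \ E1 a Af).card
  · -- many zero vectors
    obtain ⟨S, hS1, hS2⟩ := exists_subset_card_eq hz
    have hzero : Submodule.span F (a '' (S : Set α)) = ⊥ := by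
      rw [Submodule.span_eq_bot]
      rintro _ ⟨x, hx, rfl⟩
      have h1 := mem_sdiff.mp (hS1 (mem_coe.mp hx))
      by_contra hne
      apply h1.2
      rw [mem_E1]
      refine ⟨h1.1, ?_⟩
      obtain ⟨i, hi⟩ := Function.ne_iff.mp hne
      exact ⟨i, mem_sp.mpr hi⟩
    obtain ⟨C, hC1, hC2, hC3⟩ := hcirc S (hS1.trans sdiff_subset) (by
      rw [hzero, finrank_bot, hS2, zero_add])
    refine ⟨C, hC1, hC2, hfin _ ?_⟩
    have : (C.ncard : ℝ) ≤ ((s + 1 : ℕ) : ℝ) := by exact_mod_cast hC3.trans hS2.le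
    linarith
  push Not at hz
  rcases hM0 F α m a Af hfr' hKP with h1 | ⟨S, hS1, hS2, hS3⟩
  · -- few elements
    obtain ⟨C, hC1, hC2⟩ := hdep.exists_isCircuit_subset
    refine ⟨C, hC1, hC2, hfin _ ?_⟩
    have hsub : E1 a Af ⊆ Af := fun x hx => (mem_E1.mp hx).1
    have h2 : C.ncard ≤ Af.card := by
      have := Set.ncard_le_ncard hC1 (Set.toFinite _)
      rwa [← hAc, Set.ncard_coe_finset] at this
    have h3 : (Af \ E1 a Af).card + (E1 a Af).card = Af.card := card_sdiff_add_card_eq_card hsub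
    have h4 : C.ncard ≤ M0 + s := by omega
    have : (C.ncard : ℝ) ≤ ((M0 + s : ℕ) : ℝ) := by exact_mod_cast h4
    linarith
  · obtain ⟨C, hC1, hC2, hC3⟩ := hcirc S hS1 hS2
    refine ⟨C, hC1, hC2, hfin _ ?_⟩
    -- number of vertices
    have hn : (Vt a Af).card ≤ 2 * (B.ncard + s) := by
      have h2 := card_Vt_le hfr'
      have h3 : Submodule.span F (a '' (Af : Set α)) ≤
          Submodule.span F (v '' A) ⊔ Submodule.span F (p '' A) := by
        rw [Submodule.span_le]
        rintro _ ⟨x, hx, rfl⟩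
        have hxA : x ∈ A := by rw [← hAc]; exact hx
        have h4 : a x = v x - p x := by rw [hv x hxA]; simp
        rw [SetLike.mem_coe, h4, sub_eq_add_neg]
        exact Submodule.add_mem_sup (Submodule.subset_span ⟨x, hxA, rfl⟩)
          (Submodule.neg_mem _ (Submodule.subset_span ⟨x, hxA, rfl⟩))
      have h4 := Submodule.finrank_mono h3
      have h5 := Submodule.finrank_add_le_finrank_add_finrank
        (Submodule.span F (v '' A)) (Submodule.span F (p '' A))
      have h6 := hrep'.finrank_eq hB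
      omega
    have h2 := LL_le (6 * K) (Vt a Af).card (by omega)
    rw [← hβ] at h2
    have h3 := log_mul_le s B.ncard (Vt a Af).card hn
    rw [← hL] at h3
    have h4 : (C.ncard : ℝ) ≤ (s + 1) * (K + LL (6 * K) (Vt a Af).card) := by
      exact_mod_cast hC3.trans hS3
    have h5 : (LL (6 * K) (Vt a Af).card : ℝ) ≤
        4 / β * ((2 * Real.log (2 * s + 2) + 1) * L) + 10 := by
      have := mul_le_mul_of_nonneg_left h3 (show 0 ≤ 4 / β by positivity)
      linarith
    have h6 : ((s : ℝ) + 1) * (K + LL (6 * K) (Vt a Af).card) ≤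
        (s + 1) * (K + (4 / β * ((2 * Real.log (2 * s + 2) + 1) * L) + 10)) := by
      gcongr
    have h7 : ((s : ℝ) + 1) * (K + (4 / β * ((2 * Real.log (2 * s + 2) + 1) * L) + 10)) =
        (((s + 1) * (K + 10) : ℕ) : ℝ) + d * L := by
      rw [hd]; push_cast; ring
    linarith

end LG
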