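import Pool.Agent.Lib.LG.Asm

/-!
# Representable matroids: functionals, ranks
-/

open Finset Module

set_option linter.unusedSectionVars false

namespace LG

/-- `v` represents `M` -/
def Rep {F : Type} [Field F] {α : Type} (M : Matroid α) {m : ℕ} (v : α → (Fin m → F)) : Prop :=
  ∀ I : Set α, M.Indep I ↔ (I ⊆ M.E ∧ LinearIndependent F (fun x : I => v x))

variable {F : Type} [Field F] {α : Type} {m : ℕ}

/-- a basis spans -/
lemma Rep.mem_span {M : Matroid α} {v : α → (Fin m → F)} (h : Rep M v) {I X : Set α}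
    (hI : M.IsBasis I X) {x : α} (hx : x ∈ X) : v x ∈ Submodule.span F (v '' I) := by
  by_cases hxI : x ∈ I
  · exact Submodule.subset_span ⟨x, hxI, rfl⟩
  by_contra hns
  have hXE := hI.subset_ground
  have hIE : I ⊆ M.E := hI.subset.trans hXE
  have h1 : LinearIndepOn F v I := ((h I).mp hI.indep).2
  have h2 : LinearIndepOn F v (insert x I) := (linearIndepOn_insert hxI).mpr ⟨h1, hns⟩
  have h3 : M.Indep (insert x I) := (h _).mpr ⟨Set.insert_subset (hXE hx) hIE, h2⟩
  exact hxI (hI.mem_of_insert_indep hx h3)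

lemma Rep.span_eq {M : Matroid α} {v : α → (Fin m → F)} (h : Rep M v) {I X : Set α}
    (hI : M.IsBasis I X) : Submodule.span F (v '' X) = Submodule.span F (v '' I) := by
  apply le_antisymm
  · rw [Submodule.span_le]
    rintro _ ⟨x, hx, rfl⟩
    exact h.mem_span hI hx
  · exact Submodule.span_mono (Set.image_mono hI.subset)

lemma Rep.finrank_eq [Finite α] {M : Matroid α} {v : α → (Fin m → F)} (h : Rep M v) {I X : Set α}
    (hI : M.IsBasis I X) : finrank F (Submodule.span F (v '' X)) = I.ncard := by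
  classical
  have := Fintype.ofFinite α
  rw [h.span_eq hI]
  have h1 : LinearIndependent F (fun x : I => v x) := ((h I).mp hI.indep).2
  have h2 := finrank_span_eq_card h1
  have h3 : Set.range (fun x : I => v x) = v '' I := by
    ext y; simp
  rw [h3] at h2
  rw [h2, Set.ncard_eq_toFinset_card', Set.toFinset_card]

lemma Rep.eRk_eq [Finite α] {M : Matroid α} {v : α → (Fin m → F)} (h : Rep M v) {X : Set α}
    (hX : X ⊆ M.E) : M.eRk X = (finrank F (Submodule.span F (v '' X)) : ℕ∞) := by
  obtain ⟨I, hI⟩ := M.exists_isBasis X hX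
  rw [h.finrank_eq hI, ← hI.encard_eq_eRk]
  exact (Set.Finite.cast_ncard_eq (Set.toFinite I)).symm

/-- a functional with small support vanishes on a cosimple matroid -/
lemma cosimple_functional [Finite α] {M : Matroid α} {v : α → (Fin m → F)} (h : Rep M v)
    (hcos : ∀ I : Set α, I ⊆ M.E → I.ncard ≤ 2 → M✶.Indep I) (ψ : Dual F (Fin m → F))
    (hψ : {x | x ∈ M.E ∧ ψ (v x) ≠ 0}.ncard ≤ 2) : ∀ x ∈ M.E, ψ (v x) = 0 := by
  set I := {x | x ∈ M.E ∧ ψ (v x) ≠ 0} with hI
  have hIE : I ⊆ M.E := fun x hx => hx.1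
  have h1 := hcos I hIE hψ
  rw [Matroid.dual_indep_iff_exists'] at h1
  obtain ⟨_, B, hB, hdisj⟩ := h1
  intro x hx
  have h2 := h.mem_span hB.isBasis_ground hx
  have h3 : Submodule.span F (v '' B) ≤ LinearMap.ker ψ := by
    rw [Submodule.span_le]
    rintro _ ⟨y, hy, rfl⟩
    rw [SetLike.mem_coe, LinearMap.mem_ker]
    by_contra hne
    exact Set.disjoint_left.mp hdisj ⟨hB.subset_ground hy, hne⟩ hy
  exact LinearMap.mem_ker.mp (h3 h2)

/-- dependent sets from rank -/
lemma Rep.dep_of_finrank_lt {M : Matroid α} {v : α → (Fin m → F)} (h : Rep M v) {S : Finset α}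
    (hS : (S : Set α) ⊆ M.E) (hlt : finrank F (Submodule.span F (v '' (S : Set α))) < S.card) :
    M.Dep (S : Set α) := by
  classical
  rw [Matroid.dep_iff]
  refine ⟨fun hind => ?_, hS⟩
  have h1 : LinearIndependent F (fun x : (S : Set α) => v x) := ((h _).mp hind).2
  have h2 := finrank_span_eq_card h1
  have h3 : Set.range (fun x : (S : Set α) => v x) = v '' (S : Set α) := by
    ext y; simp
  rw [h3] at h2
  rw [h2] at hlt
  simp at hlt

/-- pigeonhole for functionals on two small subspaces -/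
lemma exists_eq_on [Fintype F] (P R : Submodule F (Fin m → F)) {s k : ℕ} (hP : finrank F P ≤ s)
    (hR : finrank F R ≤ k) {ι : Type} (T : Finset ι) (φ : ι → Dual F (Fin m → F))
    (hT : Fintype.card F ^ (s + k) < T.card) :
    ∃ i ∈ T, ∃ j ∈ T, i ≠ j ∧ (∀ x ∈ P, φ i x = φ j x) ∧ ∀ x ∈ R, φ i x = φ j x := by
  classical
  have : Finite (Dual F P) := Module.finite_of_finite F
  have : Finite (Dual F R) := Module.finite_of_finite F
  have : Fintype (Dual F P) := Fintype.ofFinite _
  have : Fintype (Dual F R) := Fintype.ofFinite _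
  have hq : 1 ≤ Fintype.card F := Fintype.card_pos
  have hcard : (Finset.univ : Finset (Dual F P × Dual F R)).card < T.card := by
    rw [Finset.card_univ, Fintype.card_prod, Module.card_eq_pow_finrank (K := F) (V := Dual F P),
      Module.card_eq_pow_finrank (K := F) (V := Dual F R), Subspace.dual_finrank_eq,
      Subspace.dual_finrank_eq, ← pow_add]
    exact lt_of_le_of_lt (Nat.pow_le_pow_right hq (Nat.add_le_add hP hR)) hT
  obtain ⟨i, hi, j, hj, hij, heq⟩ := Finset.exists_ne_map_eq_of_card_lt_of_maps_to hcard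
    (f := fun i => ((φ i).domRestrict P, (φ i).domRestrict R)) (fun i _ => mem_univ _)
  refine ⟨i, hi, j, hj, hij, fun x hx => ?_, fun x hx => ?_⟩
  · have := congrArg Prod.fst heq
    exact LinearMap.congr_fun this ⟨x, hx⟩
  · have := congrArg Prod.snd heq
    exact LinearMap.congr_fun this ⟨x, hx⟩

/-- the pigeonhole property holds -/
lemma KP_of_cosimple [Fintype F] [Finite α] {M : Matroid α} {v a p : α → (Fin m → F)}
    (h : Rep M v) (hcos : ∀ I : Set α, I ⊆ M.E → I.ncard ≤ 2 → M✶.Indep I) (A : Finset α)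
    (hA : (A : Set α) ⊆ M.E) {s k : ℕ}
    (hconn : M.eRk A + M.eRk (M.E \ A) ≤ M.eRk M.E + k)
    (hv : ∀ x ∈ A, v x = a x + p x)
    (hp : finrank F (Submodule.span F (p '' (A : Set α))) ≤ s) :
    KP a A (Fintype.card F ^ (s + k)) := by
  classical
  set U := Submodule.span F (v '' (A : Set α)) with hU
  set W := Submodule.span F (v '' (M.E \ A)) with hW
  set P := Submodule.span F (p '' (A : Set α)) with hPdef
  have hsup : U ⊔ W = Submodule.span F (v '' M.E) := by
    rw [hU, hW, ← Submodule.span_union, ← Set.image_union, Set.union_sdiff_cancel hA]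
  have hR : finrank F (U ⊓ W : Submodule F (Fin m → F)) ≤ k := by
    rw [h.eRk_eq hA, h.eRk_eq Set.sdiff_subset, h.eRk_eq subset_rfl, ← hU, ← hW, ← hsup] at hconn
    have h1 := Submodule.finrank_sup_add_finrank_inf_eq U W
    have h2 : finrank F U + finrank F W ≤ finrank F (U ⊔ W : Submodule F (Fin m → F)) + k := by
      exact_mod_cast hconn
    omega
  intro ι T φ hT
  obtain ⟨i, hi, j, hj, hij, e1, e2⟩ := exists_eq_on P (U ⊓ W) hp hR T φ hT
  refine ⟨i, hi, j, hj, hij, ?_⟩
  by_contra hcon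
  push Not at hcon
  obtain ⟨hne, hlt⟩ := hcon
  -- the difference
  have hann : (φ i - φ j) ∈ (U ⊓ W).dualAnnihilator := by
    rw [Submodule.mem_dualAnnihilator]
    intro x hx
    rw [LinearMap.sub_apply, e2 x hx, sub_self]
  rw [Subspace.dualAnnihilator_inf_eq, Submodule.mem_sup] at hann
  obtain ⟨θ, hθ, ψ, hψ, hsum⟩ := hann
  rw [Submodule.mem_dualAnnihilator] at hθ hψ
  have hψA : ∀ x ∈ A, ψ (v x) = φ i (a x) - φ j (a x) := by
    intro x hx
    have h1 : θ (v x) = 0 := hθ _ (Submodule.subset_span ⟨x, mem_coe.mpr hx, rfl⟩)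
    have h2 := LinearMap.congr_fun hsum (v x)
    rw [LinearMap.add_apply, h1, zero_add, LinearMap.sub_apply] at h2
    rw [h2, hv x hx, map_add, map_add,
      e1 (p x) (Submodule.subset_span ⟨x, mem_coe.mpr hx, rfl⟩)]
    ring
  have hψW : ∀ x ∈ M.E, x ∉ A → ψ (v x) = 0 := fun x hx hxA =>
    hψ _ (Submodule.subset_span ⟨x, ⟨hx, fun hc => hxA (mem_coe.mp hc)⟩, rfl⟩)
  have hset : {x | x ∈ M.E ∧ ψ (v x) ≠ 0} =
      ((A.filter fun x => φ i (a x) ≠ φ j (a x) : Finset α) : Set α) := by
    ext x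
    rw [mem_coe, mem_filter, Set.mem_ofPred_eq]
    constructor
    · rintro ⟨hx, hx2⟩
      have hxA : x ∈ A := by
        by_contra hc
        exact hx2 (hψW x hx hc)
      refine ⟨hxA, fun hc => hx2 ?_⟩
      rw [hψA x hxA, hc, sub_self]
    · rintro ⟨hx, hx2⟩
      refine ⟨hA (mem_coe.mpr hx), fun hc => hx2 ?_⟩
      rw [hψA x hx] at hc
      exact sub_eq_zero.mp hc
  have hz := cosimple_functional h hcos ψ (by
    rw [hset, Set.ncard_coe_finset]
    omega)
  obtain ⟨x, hx⟩ := hne
  rw [mem_filter] at hx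
  apply hx.2
  have := hz x (hA (mem_coe.mpr hx.1))
  rw [hψA x hx.1] at this
  exact sub_eq_zero.mp this

/-- the number of vertices is at most twice the rank of the frame matrix -/
lemma card_Vt_le {a : α → (Fin m → F)} {A : Finset α} (hfr : ∀ x ∈ A, (sp a x).card ≤ 2) :
    (Vt a A).card ≤ 2 * finrank F (Submodule.span F (a '' (A : Set α))) := by
  classical
  obtain ⟨b, hb1, hb2, hb3⟩ := exists_linearIndependent F (a '' (A : Set α))
  have hbfin : b.Finite := (A.finite_toSet.image a).subset hb1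
  have : Fintype b := hbfin.fintype
  have hcard : finrank F (Submodule.span F (a '' (A : Set α))) = b.toFinset.card := by
    rw [← hb2]
    have := finrank_span_eq_card hb3
    rw [Subtype.range_coe] at this
    rw [this, Set.toFinset_card]
  rw [hcard]
  have h1 : Vt a A ⊆ b.toFinset.biUnion fun u => univ.filter fun i => u i ≠ 0 := by
    intro i hi
    obtain ⟨x, hx⟩ := mem_Vt.mp hi
    rw [mem_inc, mem_sp] at hx
    by_contra hcon
    rw [mem_biUnion] at hcon
    push Not at hcon
    have h2 : a x ∈ Submodule.span F b := by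
      rw [hb2]
      exact Submodule.subset_span ⟨x, mem_coe.mpr hx.1, rfl⟩
    have h3 : Submodule.span F b ≤ LinearMap.ker (LinearMap.proj (R := F) (φ := fun _ : Fin m => F) i) := by
      rw [Submodule.span_le]
      intro u hu
      rw [SetLike.mem_coe, LinearMap.mem_ker, LinearMap.proj_apply]
      by_contra hne
      exact hcon u (Set.mem_toFinset.mpr hu) (mem_filter.mpr ⟨mem_univ _, hne⟩)
    exact hx.2 (LinearMap.mem_ker.mp (h3 h2))
  refine (card_le_card h1).trans (card_biUnion_le.trans ?_)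
  have h2 : ∑ u ∈ b.toFinset, (univ.filter fun i => u i ≠ 0).card ≤ ∑ _u ∈ b.toFinset, 2 := by
    refine sum_le_sum fun u hu => ?_
    obtain ⟨x, hx, rfl⟩ := hb1 (Set.mem_toFinset.mp hu)
    have h3 := hfr x (mem_coe.mp hx)
    unfold sp at h3
    convert h3
  rw [sum_const, smul_eq_mul] at h2
  omega

end LG
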